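import Mathlib

/-!
# HF Par: circle integrals which depend on parameters

`F : E × ℂ → ℂ` (`E` a complex normed space), analytic at the points `(p₀, t)`, `t` in the circle: then `p ↦ ∮ F (p, t) dt` is analytic at `p₀`.

Proof.  (1) Near `(p₀, t₀)` the function `F` has the power series `P` on a ball; for `t` near `t₀` the series `P.changeOrigin (0, t - t₀)`
represents `F` at `(p₀, t)`, its terms depend continuously on `t` and are bounded uniformly, so one can integrate termwise over a small arc.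
(2) By compactness the circle is a union of finitely many small arcs.
-/

set_option autoImplicit false

open Metric Set Filter Topology
open scoped NNReal ENNReal Interval

namespace Pool.Agent.H22.HF

private theorem par_local {E : Type} [NormedAddCommGroup E] [NormedSpace ℂ E] {F : E × ℂ → ℂ} {p₀ : E} {γ g : ℝ → ℂ}
    (hγ : Continuous γ) (hg : Continuous g) {θ₀ : ℝ} (hF : AnalyticAt ℂ F (p₀, γ θ₀)) :
    ∃ ε > 0, ∀ α ∈ ball θ₀ ε, ∀ β ∈ ball θ₀ ε, AnalyticAt ℂ (fun p => ∫ θ in α..β, g θ * F (p, γ θ)) p₀ := by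
  obtain ⟨P, R, hP⟩ := hF
  obtain ⟨r, hr0, hrR⟩ := ENNReal.lt_iff_exists_nnreal_btwn.1 hP.r_pos
  set s : ℝ≥0 := r / 2 with hs
  have hr0' : 0 < r := by exact_mod_cast hr0
  have hs0 : 0 < s := by rw [hs]; positivity
  have hss : ((s : ℝ≥0∞) + s) < P.radius := by
    have h1 : s + s = r := by rw [hs]; exact add_halves r
    have h2 : ((s : ℝ≥0∞) + s) = (r : ℝ≥0∞) := by rw [← h1]; push_cast; rfl
    rw [h2]
    exact hrR.trans_le hP.r_le
  have hsR : ((s : ℝ≥0∞) + s) < R := by
    have h1 : s + s = r := by rw [hs]; exact add_halves r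
    have h2 : ((s : ℝ≥0∞) + s) = (r : ℝ≥0∞) := by rw [← h1]; push_cast; rfl
    rw [h2]
    exact hrR
  have hsP : (s : ℝ≥0∞) < P.radius := (le_add_right le_rfl).trans_lt hss
  let x : ℝ → E × ℂ := fun θ => (0, γ θ - γ θ₀)
  have hxc : Continuous x := continuous_const.prodMk (hγ.sub continuous_const)
  have hx0 : x θ₀ = 0 := by simp [x]
  obtain ⟨ε, hε, hxε⟩ : ∃ ε > 0, ∀ θ ∈ ball θ₀ ε, ‖x θ‖₊ < s := by
    have h1 : ∀ᶠ θ in 𝓝 θ₀, ‖x θ‖₊ < s := by
      have h2 : Tendsto (fun θ => ‖x θ‖₊) (𝓝 θ₀) (𝓝 ‖x θ₀‖₊) := hxc.nnnorm.tendsto θ₀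
      rw [hx0, nnnorm_zero] at h2
      exact h2.eventually (gt_mem_nhds hs0)
    obtain ⟨ε, hε, h3⟩ := Metric.eventually_nhds_iff_ball.1 h1
    exact ⟨ε, hε, h3⟩
  refine ⟨ε, hε, ?_⟩
  intro α hα β hβ
  have hsub : uIcc α β ⊆ ball θ₀ ε := by
    rw [Real.ball_eq_Ioo] at hα hβ ⊢
    exact (ordConnected_Ioo.uIcc_subset hα hβ)
  have hsub' : Ι α β ⊆ ball θ₀ ε := uIoc_subset_uIcc.trans hsub
  have hpos : 0 < P.radius := hP.r_pos.trans_le hP.r_le
  -- the coefficients
  let L : E →L[ℂ] E × ℂ := ContinuousLinearMap.inl ℂ E ℂ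
  have hL : ‖L‖ ≤ 1 := ContinuousLinearMap.norm_inl_le_one ℂ E ℂ
  let Q : ∀ k : ℕ, ℝ → ContinuousMultilinearMap ℂ (fun _ : Fin k => E) ℂ :=
    fun k θ => (P.changeOrigin (x θ) k).compContinuousLinearMap (fun _ => L)
  let B : ℕ → ℝ≥0 := fun k =>
    ∑' t : Σ l : ℕ, { t : Finset (Fin (k + l)) // t.card = l }, ‖P (k + t.1)‖₊ * s ^ t.1
  have hQB : ∀ k, ∀ θ ∈ ball θ₀ ε, ‖Q k θ‖ ≤ B k := by
    intro k θ hθ
    have h1 : ‖Q k θ‖ ≤ ‖P.changeOrigin (x θ) k‖ := by
      refine (ContinuousMultilinearMap.norm_compContinuousLinearMap_le _ _).trans ?_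
      refine mul_le_of_le_one_right (norm_nonneg _) ?_
      exact Finset.prod_le_one (fun _ _ => norm_nonneg _) (fun _ _ => hL)
    have hxs : ‖x θ‖₊ < s := hxε θ hθ
    have hxP : (‖x θ‖₊ : ℝ≥0∞) < P.radius := lt_trans (by exact_mod_cast hxs) hsP
    have h2 : ‖P.changeOrigin (x θ) k‖₊ ≤ B k := by
      refine (P.nnnorm_changeOrigin_le k hxP).trans ?_
      refine Summable.tsum_le_tsum ?_ (P.changeOriginSeries_summable_aux₂ hxP k)
        (P.changeOriginSeries_summable_aux₂ hsP k)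
      intro t
      gcongr
    exact h1.trans (by exact_mod_cast h2)
  have hBs : Summable (fun k => B k * s ^ k) := by
    have h := P.changeOriginSeries_summable_aux₁ hss
    have h1 := (NNReal.summable_sigma.1 h).2
    simpa only [B, ← NNReal.tsum_mul_right] using h1
  have hBs' : Summable (fun k => (B k : ℝ) * (s : ℝ) ^ k) := by
    have h := NNReal.summable_coe.2 hBs
    simpa using h
  have hQc : ∀ k, ContinuousOn (Q k) (ball θ₀ ε) := by
    intro k
    have h1 : ContinuousOn (fun y => P.changeOrigin y k) (Metric.eball (0 : E × ℂ) P.radius) :=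
      (P.hasFPowerSeriesOnBall_changeOrigin k hpos).continuousOn
    have h2 : ContinuousOn (fun θ => P.changeOrigin (x θ) k) (ball θ₀ ε) := by
      refine h1.comp hxc.continuousOn ?_
      intro θ hθ
      rw [mem_eball_zero_iff]
      have h3 : ‖x θ‖₊ < s := hxε θ hθ
      exact lt_trans (by exact_mod_cast h3) hsP
    exact (ContinuousMultilinearMap.compContinuousLinearMapL
      (fun _ : Fin k => L)).continuous.comp_continuousOn h2
  obtain ⟨M, hM⟩ : ∃ M : ℝ, ∀ θ ∈ uIcc α β, ‖g θ‖ ≤ M := by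
    obtain ⟨M, hM⟩ := (isCompact_uIcc (a := α) (b := β)).exists_bound_of_continuousOn hg.continuousOn
    exact ⟨M, hM⟩
  have hM0 : 0 ≤ M := (norm_nonneg _).trans (hM α left_mem_uIcc)
  let G : FormalMultilinearSeries ℂ E ℂ := fun k => ∫ θ in α..β, g θ • Q k θ
  have hGi : ∀ k, IntervalIntegrable (fun θ => g θ • Q k θ) MeasureTheory.volume α β := by
    intro k
    exact (hg.continuousOn.smul ((hQc k).mono hsub)).intervalIntegrable
  have hGn : ∀ k, ‖G k‖ ≤ M * B k * |β - α| := by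
    intro k
    refine intervalIntegral.norm_integral_le_of_norm_le_const ?_
    intro θ hθ
    rw [norm_smul]
    have h1 := hM θ (uIoc_subset_uIcc hθ)
    have h2 := hQB k θ (hsub' hθ)
    exact mul_le_mul h1 h2 (norm_nonneg _) hM0
  refine HasFPowerSeriesOnBall.analyticAt (p := G) (r := (s : ℝ≥0∞)) ⟨?_, by exact_mod_cast hs0, ?_⟩
  · refine G.le_radius_of_summable_norm ?_
    refine Summable.of_nonneg_of_le (fun k => by positivity) (fun k => ?_)
      (hBs'.mul_left (M * |β - α|))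
    calc ‖G k‖ * (s : ℝ) ^ k ≤ (M * B k * |β - α|) * (s : ℝ) ^ k := by
          gcongr
          exact hGn k
      _ = M * |β - α| * ((B k : ℝ) * (s : ℝ) ^ k) := by ring
  · intro y hy
    have hys : ‖y‖₊ < s := by
      rw [mem_eball_zero_iff] at hy
      exact_mod_cast hy
    have hGy : ∀ k, G k (fun _ => y) = ∫ θ in α..β, g θ * Q k θ (fun _ => y) := by
      intro k
      have h1 := ((ContinuousMultilinearMap.apply ℂ (fun _ : Fin k => E) ℂ
        (fun _ => y))).intervalIntegral_comp_comm (hGi k)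
      exact h1.symm
    simp only [hGy]
    refine intervalIntegral.hasSum_integral_of_dominated_convergence
      (fun k _ => M * ((B k : ℝ) * (s : ℝ) ^ k)) ?_ ?_ ?_ ?_ ?_
    · intro k
      have h1 : ContinuousOn (fun θ => g θ * Q k θ (fun _ => y)) (uIcc α β) := by
        refine hg.continuousOn.mul ?_
        exact ((ContinuousMultilinearMap.apply ℂ (fun _ : Fin k => E) ℂ
          (fun _ => y))).continuous.comp_continuousOn ((hQc k).mono hsub)
      exact (h1.mono uIoc_subset_uIcc).aestronglyMeasurable measurableSet_uIoc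
    · intro k
      refine Eventually.of_forall (fun θ hθ => ?_)
      rw [norm_mul]
      have h1 := hM θ (uIoc_subset_uIcc hθ)
      have h2 := hQB k θ (hsub' hθ)
      have h3 : ‖Q k θ (fun _ => y)‖ ≤ (B k : ℝ) * (s : ℝ) ^ k := by
        refine ((Q k θ).le_opNorm _).trans ?_
        have h4 : ∏ _i : Fin k, ‖y‖ ≤ (s : ℝ) ^ k := by
          rw [Finset.prod_const, Finset.card_univ, Fintype.card_fin]
          exact pow_le_pow_left₀ (norm_nonneg _) (by exact_mod_cast hys.le) k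
        exact mul_le_mul h2 h4 (by positivity) (by positivity)
      exact mul_le_mul h1 h3 (norm_nonneg _) hM0
    · exact Eventually.of_forall (fun θ _ => hBs'.mul_left M)
    · exact intervalIntegrable_const
    · refine Eventually.of_forall (fun θ hθ => ?_)
      have hxs : ‖x θ‖₊ < s := hxε θ (hsub' hθ)
      have hxR : (‖x θ‖₊ : ℝ≥0∞) < R := by
        refine lt_trans ?_ ((le_add_right le_rfl).trans_lt hsR : (s : ℝ≥0∞) < R)
        exact_mod_cast hxs
      have h1 := (hP.changeOrigin (y := x θ) hxR)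
      have hmem : (y, (0 : ℂ)) ∈ Metric.eball (0 : E × ℂ) (R - ‖x θ‖₊) := by
        rw [mem_eball_zero_iff, lt_tsub_iff_right]
        have h2 : ‖((y, (0 : ℂ)) : E × ℂ)‖₊ = ‖y‖₊ := by
          rw [Prod.nnnorm_def]
          simp
        have h3 : ‖((y, (0 : ℂ)) : E × ℂ)‖ₑ = (‖y‖₊ : ℝ≥0∞) := by
          rw [enorm_eq_nnnorm, h2]
        rw [h3]
        refine lt_trans ?_ hsR
        have h4 : ‖y‖₊ + ‖x θ‖₊ < s + s := add_lt_add hys hxs
        exact_mod_cast h4
      have h2 := h1.hasSum hmem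
      have h3 : (p₀, γ θ₀) + x θ + (y, (0 : ℂ)) = (p₀ + y, γ θ) := by
        simp [x]
      rw [h3] at h2
      have h4 := h2.mul_left (g θ)
      exact h4

theorem analyticAt_circleIntegral {E : Type} [NormedAddCommGroup E] [NormedSpace ℂ E] [FiniteDimensional ℂ E] {F : E × ℂ → ℂ} {p₀ : E} {c : ℂ} {ρ : ℝ}
    (hρ : 0 < ρ) (hF : ∀ t ∈ sphere c ρ, AnalyticAt ℂ F (p₀, t)) : AnalyticAt ℂ (fun p => ∮ t in C(c, ρ), F (p, t)) p₀ := by
  have hmem : ∀ θ : ℝ, circleMap c ρ θ ∈ sphere c ρ := fun θ => circleMap_mem_sphere c hρ.le θ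
  have hγ : Continuous (circleMap c ρ) := continuous_circleMap c ρ
  have hg : Continuous (deriv (circleMap c ρ)) := by
    have h1 : deriv (circleMap c ρ) = fun θ => circleMap 0 ρ θ * Complex.I := by
      funext θ
      exact deriv_circleMap c ρ θ
    rw [h1]
    exact (continuous_circleMap 0 ρ).mul continuous_const
  have hloc : ∀ θ₀ : ℝ, ∃ ε > 0, ∀ α ∈ ball θ₀ ε, ∀ β ∈ ball θ₀ ε,
      AnalyticAt ℂ (fun p => ∫ θ in α..β, deriv (circleMap c ρ) θ * F (p, circleMap c ρ θ)) p₀ :=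
    fun θ₀ => par_local hγ hg (hF _ (hmem θ₀))
  choose ε hε hεa using hloc
  obtain ⟨δ, hδ, hδc⟩ := lebesgue_number_lemma_of_metric (isCompact_Icc (a := (0 : ℝ)) (b := 2 * Real.pi))
    (c := fun θ₀ : ℝ => ball θ₀ (ε θ₀)) (fun _ => isOpen_ball)
    (fun θ _ => mem_iUnion.2 ⟨θ, mem_ball_self (hε θ)⟩)
  have hloc2 : ∀ θ ∈ Icc (0 : ℝ) (2 * Real.pi), ∀ α ∈ ball θ δ, ∀ β ∈ ball θ δ,
      AnalyticAt ℂ (fun p => ∫ θ in α..β, deriv (circleMap c ρ) θ * F (p, circleMap c ρ θ)) p₀ := by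
    intro θ hθ α hα β hβ
    obtain ⟨θ₀, h0⟩ := hδc θ hθ
    exact hεa θ₀ α (h0 hα) β (h0 hβ)
  have hpi : 0 < 2 * Real.pi := by positivity
  obtain ⟨N, hN⟩ := exists_nat_gt (2 * Real.pi / δ)
  have hN0 : (0 : ℝ) < N := lt_trans (by positivity) hN
  have hNδ : 2 * Real.pi / N < δ := by
    rw [div_lt_iff₀ hδ] at hN
    rw [div_lt_iff₀ hN0]
    linarith
  let a : ℕ → ℝ := fun k => 2 * Real.pi * k / N
  have ha0 : a 0 = 0 := by simp [a]
  have haN : a N = 2 * Real.pi := by
    simp only [a]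
    field_simp
  have hstep : ∀ k, a (k + 1) = a k + 2 * Real.pi / N := by
    intro k
    simp only [a]
    push_cast
    ring
  have hsum : AnalyticAt ℂ (fun p => ∑ k ∈ Finset.range N,
      ∫ θ in a k..a (k + 1), deriv (circleMap c ρ) θ * F (p, circleMap c ρ θ)) p₀ := by
    refine Finset.analyticAt_fun_sum _ ?_
    intro k hk
    have hk' : k < N := Finset.mem_range.1 hk
    have hkI : a k ∈ Icc (0 : ℝ) (2 * Real.pi) := by
      constructor
      · simp only [a]
        positivity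
      · simp only [a]
        rw [div_le_iff₀ hN0]
        have : (k : ℝ) ≤ N := by exact_mod_cast hk'.le
        nlinarith
    refine hloc2 (a k) hkI (a k) (mem_ball_self hδ) (a (k + 1)) ?_
    rw [hstep, mem_ball, Real.dist_eq]
    have : a k + 2 * Real.pi / N - a k = 2 * Real.pi / N := by ring
    rw [this, abs_of_pos (by positivity)]
    exact hNδ
  refine hsum.congr ?_
  obtain ⟨u, v, hu, _, hpu, htv, huv⟩ := generalized_tube_lemma (isCompact_singleton (x := p₀))
    (isCompact_sphere c ρ) (isOpen_analyticAt ℂ F) (by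
      rintro ⟨p, t⟩ ⟨hp, ht⟩
      simp only [mem_singleton_iff] at hp ht
      subst hp
      exact hF t ht)
  have hev : ∀ᶠ p in 𝓝 p₀, p ∈ u := hu.mem_nhds (hpu rfl)
  filter_upwards [hev] with p hp
  have hcont : Continuous (fun θ => deriv (circleMap c ρ) θ * F (p, circleMap c ρ θ)) := by
    refine hg.mul ?_
    rw [continuous_iff_continuousAt]
    intro θ
    have h1 : AnalyticAt ℂ F (p, circleMap c ρ θ) := huv ⟨hp, htv (hmem θ)⟩
    exact h1.continuousAt.comp (f := fun θ => (p, circleMap c ρ θ))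
      (continuous_const.prodMk hγ).continuousAt
  rw [intervalIntegral.sum_integral_adjacent_intervals
    (fun k _ => hcont.intervalIntegrable _ _), ha0, haN]
  rfl

end Pool.Agent.H22.HF
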