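import Mathlib

/-!
# HF Fac: the zeros of a holomorphic function in a disc and power sums

`exists_fac`: `φ` analytic on a neighbourhood of the closed disc, without zeros on the circle: `φ t = ∏ (t - r i) * w t`, `w` analytic without zeros on the closed disc.  (Finitely many zeros in
the compact disc, finite orders, induction on the sum of the orders `∑ analyticOrderAt`; or `MeromorphicOn.extract_zeros_poles` / `AnalyticOnNhd` divisors in Mathlib.)

`power_sum`: for `H` analytic on a neighbourhood of the closed disc `∮ H φ' / φ = 2 π i ∑ H (r i)`: `φ' / φ = ∑ 1 / (t - r i) + w' / w` on the circle, Cauchy's formula and Cauchy's theorem.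

`esymm_newton`: the product of `ν` numbers is a polynomial in their power sums, with rational coefficients which do not depend on the numbers (`MvPolynomial.mul_esymm_eq_sum`, strong induction).
-/

set_option autoImplicit false

open Metric Set Filter Topology

namespace Pool.Agent.H22.HF

private lemma divide_zero {φ : ℂ → ℂ} {ρ : ℝ} (hφ : ∀ t ∈ closedBall (0 : ℂ) ρ, AnalyticAt ℂ φ t)
    {z : ℂ} (hz : AnalyticAt ℂ φ z) (hord : analyticOrderAt φ z ≠ ⊤) :
    ∃ (m : ℕ) (φ1 : ℂ → ℂ), (∀ t ∈ closedBall (0 : ℂ) ρ, AnalyticAt ℂ φ1 t) ∧ φ1 z ≠ 0 ∧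
      (∀ t, φ t = (t - z) ^ m * φ1 t) := by
  obtain ⟨m, hm⟩ := ENat.ne_top_iff_exists.1 hord
  obtain ⟨g, hg, hg0, hgφ⟩ := (hz.analyticOrderAt_eq_natCast).1 hm.symm
  classical
  refine ⟨m, fun t => if t = z then g z else φ t / (t - z) ^ m, ?_, ?_, ?_⟩
  · intro t ht
    by_cases htz : t = z
    · subst htz
      refine hg.congr ?_
      filter_upwards [hgφ] with s hs
      by_cases hst : s = t
      · simp [hst]
      · have : (s - t) ^ m ≠ 0 := pow_ne_zero _ (sub_ne_zero.2 hst)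
        rw [if_neg hst, hs, smul_eq_mul]
        field_simp
    · have h1 : AnalyticAt ℂ (fun s => φ s / (s - z) ^ m) t := by
        refine (hφ t ht).div ?_ ?_
        · exact (analyticAt_id.sub analyticAt_const).pow m
        · exact pow_ne_zero _ (sub_ne_zero.2 htz)
      refine h1.congr ?_
      filter_upwards [isOpen_ne.mem_nhds htz] with s hs
      rw [if_neg hs]
  · simpa using hg0
  · intro t
    by_cases htz : t = z
    · subst htz
      have := hgφ.self_of_nhds
      simpa [smul_eq_mul] using this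
    · have : (t - z) ^ m ≠ 0 := pow_ne_zero _ (sub_ne_zero.2 htz)
      simp only [if_neg htz]
      field_simp

private lemma fac_finset {ρ : ℝ} (Z : Finset ℂ) : ∀ (φ : ℂ → ℂ)
    (_ : ∀ t ∈ closedBall (0 : ℂ) ρ, AnalyticAt ℂ φ t)
    (_ : ∀ t ∈ closedBall (0 : ℂ) ρ, analyticOrderAt φ t ≠ ⊤)
    (_ : ∀ t ∈ closedBall (0 : ℂ) ρ, φ t = 0 → t ∈ Z) (_ : ∀ z ∈ Z, ‖z‖ < ρ),
    ∃ (ν : ℕ) (r : Fin ν → ℂ) (w : ℂ → ℂ), (∀ i, ‖r i‖ < ρ) ∧
      (∀ t ∈ closedBall (0 : ℂ) ρ, AnalyticAt ℂ w t ∧ w t ≠ 0) ∧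
      ∀ t, φ t = (∏ i, (t - r i)) * w t := by
  classical
  induction Z using Finset.induction_on with
  | empty =>
    intro φ hφ _ h0 _
    refine ⟨0, Fin.elim0, φ, fun i => i.elim0, fun t ht => ⟨hφ t ht, fun h => ?_⟩, fun t => by simp⟩
    simpa using h0 t ht h
  | insert z Z hzZ ih =>
    intro φ hφ hord h0 hZ
    have hzρ : ‖z‖ < ρ := hZ z (Finset.mem_insert_self _ _)
    have hzb : z ∈ closedBall (0 : ℂ) ρ := by
      rw [mem_closedBall, dist_zero_right]; exact hzρ.le
    obtain ⟨m, φ1, h1, h2, h3⟩ := divide_zero hφ (hφ z hzb) (hord z hzb)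
    obtain ⟨ν, r, w, hr, hw, hfac⟩ := ih φ1 h1 (by
      intro t ht htop
      apply hord t ht
      rw [analyticOrderAt_eq_top] at htop ⊢
      filter_upwards [htop] with s hs
      rw [h3 s, hs, mul_zero]) (by
      intro t ht h
      have : φ t = 0 := by rw [h3 t, h, mul_zero]
      rcases Finset.mem_insert.1 (h0 t ht this) with h' | h'
      · subst h'; exact absurd h h2
      · exact h') (fun y hy => hZ y (Finset.mem_insert_of_mem hy))
    refine ⟨m + ν, Fin.append (fun _ : Fin m => z) r, w, ?_, hw, ?_⟩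
    · intro i
      refine Fin.addCases (fun i => ?_) (fun i => ?_) i
      · rw [Fin.append_left]; exact hzρ
      · rw [Fin.append_right]; exact hr i
    · intro t
      rw [Fin.prod_univ_add]
      simp only [Fin.append_left, Fin.append_right, Finset.prod_const, Finset.card_univ, Fintype.card_fin]
      rw [h3 t, hfac t, mul_assoc]

theorem exists_fac {φ : ℂ → ℂ} {ρ : ℝ} (hρ : 0 < ρ) (hφ : ∀ t ∈ closedBall (0 : ℂ) ρ, AnalyticAt ℂ φ t) (h0 : ∀ t ∈ sphere (0 : ℂ) ρ, φ t ≠ 0) :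
    ∃ (ν : ℕ) (r : Fin ν → ℂ) (w : ℂ → ℂ), (∀ i, ‖r i‖ < ρ) ∧ (∀ t ∈ closedBall (0 : ℂ) ρ, AnalyticAt ℂ w t ∧ w t ≠ 0) ∧
      ∀ t ∈ closedBall (0 : ℂ) ρ, φ =ᶠ[𝓝 t] fun t => (∏ i, (t - r i)) * w t := by
  classical
  have hρs : ((ρ : ℝ) : ℂ) ∈ sphere (0 : ℂ) ρ := by
    rw [mem_sphere, dist_zero_right, Complex.norm_real, Real.norm_of_nonneg hρ.le]
  have hnotloc : ∀ t ∈ closedBall (0 : ℂ) ρ, ¬ (∀ᶠ s in 𝓝 t, φ s = 0) := by
    intro t ht hev
    have hpre : IsPreconnected (closedBall (0 : ℂ) ρ) := (convex_closedBall 0 ρ).isPreconnected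
    have hA : AnalyticOnNhd ℂ φ (closedBall (0 : ℂ) ρ) := fun s hs => hφ s hs
    have := hA.eqOn_zero_of_preconnected_of_eventuallyEq_zero hpre ht hev
    exact h0 _ hρs (this (sphere_subset_closedBall hρs))
  have hord : ∀ t ∈ closedBall (0 : ℂ) ρ, analyticOrderAt φ t ≠ ⊤ := by
    intro t ht htop
    rw [analyticOrderAt_eq_top] at htop
    exact hnotloc t ht htop
  -- finitely many zeros
  have hfin : ∃ Z : Finset ℂ, ∀ t ∈ closedBall (0 : ℂ) ρ, φ t = 0 → t ∈ Z := by
    have hU : ∀ t ∈ closedBall (0 : ℂ) ρ, {s : ℂ | φ s ≠ 0 ∨ s = t} ∈ 𝓝 t := by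
      intro t ht
      rcases (hφ t ht).eventually_eq_zero_or_eventually_ne_zero with h | h
      · exact absurd h (hnotloc t ht)
      · rw [eventually_nhdsWithin_iff] at h
        filter_upwards [h] with s hs
        by_cases hst : s = t
        · right; exact hst
        · left; exact hs hst
    obtain ⟨F, hF1, hF2⟩ := (isCompact_closedBall (0 : ℂ) ρ).elim_nhds_subcover (fun t => {s : ℂ | φ s ≠ 0 ∨ s = t}) hU
    refine ⟨F, fun t ht h => ?_⟩
    obtain ⟨x, hx, hx2⟩ := mem_iUnion₂.1 (hF2 ht)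
    rcases hx2 with h' | h'
    · exact absurd h h'
    · rw [h']; exact hx
  obtain ⟨Z, hZ⟩ := hfin
  obtain ⟨ν, r, w, hr, hw, hfac⟩ := fac_finset (ρ := ρ) (Z.filter fun z => ‖z‖ < ρ) φ hφ hord (by
    intro t ht h
    refine Finset.mem_filter.2 ⟨hZ t ht h, ?_⟩
    rw [mem_closedBall, dist_zero_right] at ht
    rcases ht.lt_or_eq with h' | h'
    · exact h'
    · exact absurd h (h0 t (by rw [mem_sphere, dist_zero_right]; exact h'))) (fun z hz => (Finset.mem_filter.1 hz).2)
  exact ⟨ν, r, w, hr, hw, fun t _ => Eventually.of_forall hfac⟩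

theorem power_sum {ρ : ℝ} (hρ : 0 < ρ) {φ w H : ℂ → ℂ} {ν : ℕ} {r : Fin ν → ℂ} (hr : ∀ i, ‖r i‖ < ρ) (hw : ∀ t ∈ closedBall (0 : ℂ) ρ, AnalyticAt ℂ w t ∧ w t ≠ 0)
    (hφ : ∀ t ∈ closedBall (0 : ℂ) ρ, φ =ᶠ[𝓝 t] fun t => (∏ i, (t - r i)) * w t) (hH : ∀ t ∈ closedBall (0 : ℂ) ρ, AnalyticAt ℂ H t) :
    (∮ t in C(0, ρ), H t * deriv φ t / φ t) = 2 * Real.pi * Complex.I * ∑ i, H (r i) := by
  have hne : ∀ t ∈ sphere (0 : ℂ) ρ, ∀ i, t - r i ≠ 0 := by
    intro t ht i h
    rw [mem_sphere, dist_zero_right] at ht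
    have := hr i
    rw [← sub_eq_zero.1 h, ht] at this
    exact lt_irrefl _ this
  have hdiff : DifferentiableOn ℂ H (closedBall 0 ρ) :=
    fun t ht => (hH t ht).differentiableAt.differentiableWithinAt
  have hdiff2 : DifferentiableOn ℂ (fun t => H t * logDeriv w t) (closedBall 0 ρ) := by
    intro t ht
    refine DifferentiableAt.differentiableWithinAt ?_
    have h1 : AnalyticAt ℂ (fun t => H t * (deriv w t / w t)) t :=
      (hH t ht).mul ((hw t ht).1.deriv.div (hw t ht).1 (hw t ht).2)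
    exact h1.differentiableAt
  have hEq : EqOn (fun t => H t * deriv φ t / φ t)
      (fun t => (∑ i, (t - r i)⁻¹ • H t) + H t * logDeriv w t) (sphere 0 ρ) := by
    intro t ht
    have htc := sphere_subset_closedBall ht
    have h1 : logDeriv φ t = logDeriv (fun t => (∏ i, (t - r i)) * w t) t :=
      (logDeriv_congr_nhds (hφ t htc)).self_of_nhds
    have h2 : logDeriv (fun t => (∏ i, (t - r i)) * w t) t =
        (∑ i, (t - r i)⁻¹) + logDeriv w t := by
      rw [logDeriv_mul t (Finset.prod_ne_zero_iff.2 fun i _ => hne t ht i) (hw t htc).2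
        (by fun_prop) (hw t htc).1.differentiableAt,
        logDeriv_prod (fun i _ => hne t ht i) (fun i _ => by fun_prop)]
      congr 1
      refine Finset.sum_congr rfl fun i _ => ?_
      rw [logDeriv_apply, deriv_sub_const, deriv_id'', one_div]
    change H t * deriv φ t / φ t = (∑ i, (t - r i)⁻¹ • H t) + H t * logDeriv w t
    rw [mul_div_assoc, ← logDeriv_apply, h1, h2, mul_add, Finset.mul_sum]
    congr 1
    refine Finset.sum_congr rfl fun i _ => ?_
    rw [smul_eq_mul, mul_comm]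
  rw [circleIntegral.integral_congr hρ.le hEq]
  have hci : ∀ i ∈ (Finset.univ : Finset (Fin ν)), CircleIntegrable (fun t => (t - r i)⁻¹ • H t) 0 ρ := by
    intro i _
    refine ContinuousOn.circleIntegrable hρ.le ?_
    have h5 : ContinuousOn (fun t : ℂ => (t - r i)⁻¹) (sphere 0 ρ) :=
      (continuousOn_id.sub continuousOn_const).inv₀ fun t ht => hne t ht i
    exact h5.smul (hdiff.continuousOn.mono sphere_subset_closedBall)
  rw [circleIntegral.integral_add, circleIntegral.integral_fun_sum hci]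
  · have h3 : (∮ t in C(0, ρ), H t * logDeriv w t) = 0 := by
      refine DiffContOnCl.circleIntegral_eq_zero hρ.le ?_
      exact (hdiff2.mono closure_ball_subset_closedBall).diffContOnCl
    rw [h3, add_zero, Finset.mul_sum]
    refine Finset.sum_congr rfl fun i _ => ?_
    rw [hdiff.circleIntegral_sub_inv_smul (by rw [mem_ball, dist_zero_right]; exact hr i), smul_eq_mul]
  · have := CircleIntegrable.fun_sum Finset.univ hci
    exact this
  · exact ContinuousOn.circleIntegrable hρ.le (hdiff2.continuousOn.mono sphere_subset_closedBall)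

open MvPolynomial in
private lemma esymm_newton_aux (ν : ℕ) : ∀ k : ℕ, k ≤ ν → ∃ P : MvPolynomial (Fin ν) ℂ, ∀ a : Fin ν → ℂ,
    eval a (esymm (Fin ν) ℂ k) = eval (fun j : Fin ν => ∑ i, a i ^ ((j : ℕ) + 1)) P := by
  intro k
  induction k using Nat.strong_induction_on with
  | _ k ih =>
    intro hk
    rcases Nat.eq_zero_or_pos k with h0 | h0
    · subst h0
      exact ⟨1, fun a => by simp⟩
    · have hex : ∀ j : ℕ, ∃ Q : MvPolynomial (Fin ν) ℂ, j < k → ∀ a : Fin ν → ℂ,
          eval a (esymm (Fin ν) ℂ j) = eval (fun j : Fin ν => ∑ i, a i ^ ((j : ℕ) + 1)) Q := by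
        intro j
        by_cases hj : j < k
        · obtain ⟨Q, hQ⟩ := ih j hj (hj.le.trans hk)
          exact ⟨Q, fun _ => hQ⟩
        · exact ⟨0, fun h => absurd h hj⟩
      choose Q hQ using hex
      have hps : ∀ j : ℕ, ∃ R : MvPolynomial (Fin ν) ℂ, 0 < j → j ≤ k → ∀ a : Fin ν → ℂ,
          eval a (psum (Fin ν) ℂ j) = eval (fun j : Fin ν => ∑ i, a i ^ ((j : ℕ) + 1)) R := by
        intro j
        by_cases hj : 0 < j ∧ j ≤ k
        · refine ⟨X ⟨j - 1, by omega⟩, fun _ _ a => ?_⟩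
          rw [eval_X, psum, map_sum]
          refine Finset.sum_congr rfl fun i _ => ?_
          have : j - 1 + 1 = j := by omega
          simp [this]
        · exact ⟨0, fun h1 h2 => absurd ⟨h1, h2⟩ hj⟩
      choose R hR using hps
      refine ⟨C ((k : ℂ)⁻¹ * (-1) ^ (k + 1)) * ∑ a ∈ Finset.HasAntidiagonal.antidiagonal k with a.1 < k, C ((-1 : ℂ) ^ a.1) * Q a.1 * R a.2, fun a => ?_⟩
      have hk0 : (k : ℂ) ≠ 0 := by exact_mod_cast h0.ne'
      have h1 := congrArg (eval a) (mul_esymm_eq_sum (Fin ν) ℂ k)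
      simp only [map_mul, map_natCast, map_pow, map_neg, map_one, map_sum] at h1
      have h2 : eval a (esymm (Fin ν) ℂ k) = (k : ℂ)⁻¹ * ((k : ℂ) * eval a (esymm (Fin ν) ℂ k)) := by
        field_simp
      rw [h2, h1]
      simp only [map_mul, eval_C, map_sum]
      rw [mul_assoc]
      congr 2
      refine Finset.sum_congr rfl fun b hb => ?_
      obtain ⟨hb1, hb2⟩ := Finset.mem_filter.1 hb
      rw [Finset.HasAntidiagonal.mem_antidiagonal] at hb1
      rw [hQ b.1 hb2 a, hR b.2 (by omega) (by omega) a]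

theorem esymm_newton (ν : ℕ) : ∃ P : MvPolynomial (Fin ν) ℂ, ∀ a : Fin ν → ℂ, ∏ i, a i = MvPolynomial.eval (fun k : Fin ν => ∑ i, a i ^ ((k : ℕ) + 1)) P := by
  obtain ⟨P, hP⟩ := esymm_newton_aux ν ν le_rfl
  refine ⟨P, fun a => ?_⟩
  rw [← hP a, MvPolynomial.esymm]
  have : (Finset.univ : Finset (Fin ν)).powersetCard ν = {Finset.univ} := by
    have := Finset.powersetCard_self (Finset.univ : Finset (Fin ν))
    simpa using this
  rw [this, Finset.sum_singleton, map_prod]
  simp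

end Pool.Agent.H22.HF
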