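import Pool.Agent.H22.HF.Par
import Pool.Agent.H22.HF.Fac

/-!
# HF Nrm: elimination of one variable

`g, h j : E × ℂ → ℂ` analytic at `0`, `g (0, ·)` is not zero near `0`, `g 0 = 0`.  The set of the `p` near `0` for which `g (p, ·)`, `h j (p, ·)` have a common zero `t`, `‖t‖ < ε'`, is the set of the
common zeros of finitely many functions `R c` which are analytic at `0`.

Proof.  (1) Choose `ε' ≤ ε` such that all the functions are analytic at `(0, t)` for `‖t‖ ≤ ε'` and `g (0, t) ≠ 0` for `0 < ‖t‖ ≤ ε'`.  By compactness for `p` near `0`: analytic at `(p, t)` for all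
`‖t‖ ≤ ε'`, and `g (p, t) ≠ 0` for `‖t‖ = ε'`.  (2) For such `p` let `r i` (`i < ν`) be the zeros of `g (p, ·)` (`exists_fac`).  For `H : E × ℂ → ℂ` analytic near the disc
`(2 π i)⁻¹ ∮ H (p, t) ^ k * ∂_t g (p, t) / g (p, t) dt = ∑ i, H (p, r i) ^ k` (`power_sum`) is analytic at `p = 0` (`analyticAt_circleIntegral`; `∂_t g (p, t) = fderiv g (p, t) (0, 1)`).  For `k = 0`:
`ν = ν p` is a continuous function at `0`, so constant near `0`.  (3) `R c p = ∏ i, (∑ j, c ^ j * h j (p, r i))` (`c = 0, 1, ..., ν m`) is analytic at `0`: `esymm_newton`.  (4) If all the `h j` are `0` at some `r i`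
then all the `R c p = 0`.  Otherwise for every `i` the polynomial `∑ j, c ^ j * h j (p, r i)` in `c` is not zero, of degree `< m` (if `m ≥ 1`), so it has `< m` zeros, so some `c ≤ ν m` is not a zero
of any of them.  (`m = 0`: there are no `h j`; `R c p = ∏ i, 0 = 0` since `ν ≥ 1`, and `t = r 0`.  `ν ≥ 1` because `g 0 = 0`.)
-/

set_option autoImplicit false

open Metric Set Filter Topology

namespace Pool.Agent.H22.HF

/-- the normalised contour integral -/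
private noncomputable def AA {E : Type} [NormedAddCommGroup E] [NormedSpace ℂ E] (g : E × ℂ → ℂ) (ρ : ℝ) (H : E × ℂ → ℂ) (p : E) : ℂ :=
  (2 * Real.pi * Complex.I)⁻¹ * ∮ t in C(0, ρ), H (p, t) * fderiv ℂ g (p, t) (0, 1) / g (p, t)

private theorem AA_analytic {E : Type} [NormedAddCommGroup E] [NormedSpace ℂ E] [FiniteDimensional ℂ E] {g H : E × ℂ → ℂ} {ρ : ℝ} (hρ : 0 < ρ) {p : E}
    (hg : ∀ t ∈ sphere (0 : ℂ) ρ, AnalyticAt ℂ g (p, t)) (hH : ∀ t ∈ sphere (0 : ℂ) ρ, AnalyticAt ℂ H (p, t)) (hn : ∀ t ∈ sphere (0 : ℂ) ρ, g (p, t) ≠ 0) :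
    AnalyticAt ℂ (AA g ρ H) p := by
  unfold AA
  refine analyticAt_const.mul (analyticAt_circleIntegral (F := fun z => H z * fderiv ℂ g z (0, 1) / g z) hρ ?_)
  intro t ht
  refine ((hH t ht).mul ?_).div (hg t ht) (hn t ht)
  exact (ContinuousLinearMap.analyticAt (ContinuousLinearMap.apply ℂ ℂ ((0, 1) : E × ℂ)) _).comp (hg t ht).fderiv

private theorem AA_eq {E : Type} [NormedAddCommGroup E] [NormedSpace ℂ E] [FiniteDimensional ℂ E] {g H : E × ℂ → ℂ} {ρ : ℝ} (hρ : 0 < ρ) {p : E}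
    (hg : ∀ t ∈ closedBall (0 : ℂ) ρ, AnalyticAt ℂ g (p, t)) (hH : ∀ t ∈ closedBall (0 : ℂ) ρ, AnalyticAt ℂ H (p, t))
    {w : ℂ → ℂ} {ν : ℕ} {r : Fin ν → ℂ} (hr : ∀ i, ‖r i‖ < ρ) (hw : ∀ t ∈ closedBall (0 : ℂ) ρ, AnalyticAt ℂ w t ∧ w t ≠ 0)
    (hφ : ∀ t ∈ closedBall (0 : ℂ) ρ, (fun t => g (p, t)) =ᶠ[𝓝 t] fun t => (∏ i, (t - r i)) * w t) :
    AA g ρ H p = ∑ i, H (p, r i) := by
  have hin : ∀ t : ℂ, AnalyticAt ℂ (fun t : ℂ => ((p, t) : E × ℂ)) t := fun t => analyticAt_const.prod analyticAt_id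
  have hps := power_sum (H := fun t => H (p, t)) hρ hr hw hφ (fun t ht => (hH t ht).comp (hin t))
  have hint : (∮ t in C(0, ρ), H (p, t) * fderiv ℂ g (p, t) (0, 1) / g (p, t)) = ∮ t in C(0, ρ), H (p, t) * deriv (fun t => g (p, t)) t / g (p, t) := by
    refine circleIntegral.integral_congr hρ.le (fun t ht => ?_)
    have h1 : HasFDerivAt g (fderiv ℂ g (p, t)) (p, t) := (hg t (sphere_subset_closedBall ht)).differentiableAt.hasFDerivAt
    have h2 : HasDerivAt (fun t : ℂ => ((p, t) : E × ℂ)) ((0, 1) : E × ℂ) t := (hasDerivAt_const t p).prodMk (hasDerivAt_id t)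
    have h3 : HasDerivAt (fun t => g (p, t)) (fderiv ℂ g (p, t) (0, 1)) t := h1.comp_hasDerivAt t h2
    simp only [h3.deriv]
  unfold AA
  rw [hint, hps, ← mul_assoc, inv_mul_cancel₀, one_mul]
  exact Complex.two_pi_I_ne_zero

private theorem zero_iff {φ w : ℂ → ℂ} {ρ : ℝ} {ν : ℕ} {r : Fin ν → ℂ} (hw : ∀ t ∈ closedBall (0 : ℂ) ρ, AnalyticAt ℂ w t ∧ w t ≠ 0)
    (hφ : ∀ t ∈ closedBall (0 : ℂ) ρ, φ =ᶠ[𝓝 t] fun t => (∏ i, (t - r i)) * w t) {t : ℂ} (ht : t ∈ closedBall (0 : ℂ) ρ) : φ t = 0 ↔ ∃ i, t = r i := by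
  rw [(hφ t ht).eq_of_nhds, mul_eq_zero, or_iff_left (hw t ht).2, Finset.prod_eq_zero_iff]
  constructor
  · rintro ⟨i, _, hi⟩
    exact ⟨i, sub_eq_zero.mp hi⟩
  · rintro ⟨i, hi⟩
    exact ⟨i, Finset.mem_univ i, sub_eq_zero.mpr hi⟩

private theorem prod_zero_iff {ν m : ℕ} (a : Fin ν → Fin m → ℂ) :
    (∀ c : Fin (ν * m + 1), ∏ i, ∑ j : Fin m, ((c : ℕ) : ℂ) ^ (j : ℕ) * a i j = 0) ↔ ∃ i, ∀ j, a i j = 0 := by
  constructor
  · intro h
    by_contra hcon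
    push Not at hcon
    let Q : Fin ν → Polynomial ℂ := fun i => ∑ j : Fin m, Polynomial.C (a i j) * Polynomial.X ^ (j : ℕ)
    have hQc : ∀ i (j : Fin m), (Q i).coeff (j : ℕ) = a i j := by
      intro i j
      simp only [Q, Polynomial.finsetSum_coeff, Polynomial.coeff_C_mul, Polynomial.coeff_X_pow]
      rw [Finset.sum_eq_single j]
      · simp
      · intro b _ hb
        have : (j : ℕ) ≠ (b : ℕ) := fun h => hb (Fin.ext h.symm)
        simp [this]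
      · simp
    have hQ0 : ∀ i, Q i ≠ 0 := by
      intro i hi
      obtain ⟨j, hj⟩ := hcon i
      apply hj
      rw [← hQc i j, hi, Polynomial.coeff_zero]
    have hQd : ∀ i, (Q i).natDegree ≤ m := by
      intro i
      refine Polynomial.natDegree_sum_le_of_forall_le _ _ (fun j _ => ?_)
      refine (Polynomial.natDegree_C_mul_X_pow_le _ _).trans j.isLt.le
    have hQe : ∀ i (x : ℂ), (Q i).eval x = ∑ j : Fin m, x ^ (j : ℕ) * a i j := by
      intro i x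
      simp only [Q, Polynomial.eval_finsetSum, Polynomial.eval_mul, Polynomial.eval_C, Polynomial.eval_pow, Polynomial.eval_X]
      exact Finset.sum_congr rfl (fun j _ => mul_comm _ _)
    have hP0 : (∏ i, Q i) ≠ 0 := Finset.prod_ne_zero_iff.mpr (fun i _ => hQ0 i)
    apply hP0
    refine Polynomial.eq_zero_of_natDegree_lt_card_of_eval_eq_zero (∏ i, Q i) (f := fun c : Fin (ν * m + 1) => ((c : ℕ) : ℂ)) ?_ ?_ ?_
    · intro x y hxy
      have hxy' : ((x : ℕ) : ℂ) = ((y : ℕ) : ℂ) := hxy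
      exact Fin.ext (by exact_mod_cast hxy')
    · intro c
      rw [Polynomial.eval_prod]
      simp only [hQe]
      exact h c
    · rw [Fintype.card_fin]
      have h1 : (∏ i, Q i).natDegree ≤ ∑ i : Fin ν, (Q i).natDegree := Polynomial.natDegree_prod_le _ _
      have h2 : ∑ i : Fin ν, (Q i).natDegree ≤ ∑ _i : Fin ν, m := Finset.sum_le_sum (fun i _ => hQd i)
      rw [Finset.sum_const, Finset.card_univ, Fintype.card_fin, smul_eq_mul] at h2
      omega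
  · rintro ⟨i, hi⟩ c
    refine Finset.prod_eq_zero (Finset.mem_univ i) ?_
    simp [hi]

theorem exists_norm {E : Type} [NormedAddCommGroup E] [NormedSpace ℂ E] [FiniteDimensional ℂ E] {g : E × ℂ → ℂ} (hg : AnalyticAt ℂ g 0) (h0 : g 0 = 0)
    (hreg : ¬ ∀ᶠ t in 𝓝 (0 : ℂ), g (0, t) = 0) {m : ℕ} (h : Fin m → E × ℂ → ℂ) (hh : ∀ j, AnalyticAt ℂ (h j) 0) {ε : ℝ} (hε : 0 < ε) :
    ∃ (M : ℕ) (R : Fin M → E → ℂ) (ε' : ℝ), 0 < ε' ∧ ε' ≤ ε ∧ (∀ c, AnalyticAt ℂ (R c) 0) ∧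
      ∀ᶠ p in 𝓝 (0 : E), ((∀ c, R c p = 0) ↔ ∃ t : ℂ, ‖t‖ < ε' ∧ g (p, t) = 0 ∧ ∀ j, h j (p, t) = 0) := by
  -- (1) the radius
  have hev : ∀ᶠ z in 𝓝 (0 : E × ℂ), AnalyticAt ℂ g z ∧ ∀ j, AnalyticAt ℂ (h j) z :=
    hg.eventually_analyticAt.and (eventually_all.mpr (fun j => (hh j).eventually_analyticAt))
  obtain ⟨δ, hδ, hball⟩ := Metric.eventually_nhds_iff_ball.mp hev
  have hg1 : AnalyticAt ℂ (fun t : ℂ => g (0, t)) 0 := by
    have h1 : AnalyticAt ℂ (fun t : ℂ => ((0, t) : E × ℂ)) 0 := analyticAt_const.prod analyticAt_id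
    exact AnalyticAt.comp (g := g) (f := fun t : ℂ => ((0, t) : E × ℂ)) hg h1
  have hne : ∀ᶠ t in 𝓝[≠] (0 : ℂ), g (0, t) ≠ 0 := hg1.eventually_eq_zero_or_eventually_ne_zero.resolve_left hreg
  rw [eventually_nhdsWithin_iff] at hne
  obtain ⟨δ₁, hδ₁, hball₁⟩ := Metric.eventually_nhds_iff_ball.mp hne
  set ρ : ℝ := min ε (min (δ / 2) (δ₁ / 2)) with hρdef
  have hρ : 0 < ρ := lt_min hε (lt_min (by linarith) (by linarith))
  have hρε : ρ ≤ ε := min_le_left _ _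
  have hρδ : ρ < δ := lt_of_le_of_lt ((min_le_right _ _).trans (min_le_left _ _)) (by linarith)
  have hρδ₁ : ρ < δ₁ := lt_of_le_of_lt ((min_le_right _ _).trans (min_le_right _ _)) (by linarith)
  have han : ∀ p : E, ‖p‖ < δ → ∀ t ∈ closedBall (0 : ℂ) ρ, AnalyticAt ℂ g (p, t) ∧ ∀ j, AnalyticAt ℂ (h j) (p, t) := by
    intro p hp t ht
    apply hball
    rw [mem_ball_zero_iff, Prod.norm_def]
    rw [mem_closedBall_zero_iff] at ht
    exact max_lt hp (lt_of_le_of_lt ht hρδ)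
  have hn0 : ∀ t ∈ sphere (0 : ℂ) ρ, g (0, t) ≠ 0 := by
    intro t ht
    rw [mem_sphere_zero_iff_norm] at ht
    refine hball₁ t (by rw [mem_ball_zero_iff, ht]; exact hρδ₁) ?_
    rintro rfl
    rw [norm_zero] at ht
    exact hρ.ne ht
  have hev1 : ∀ᶠ p in 𝓝 (0 : E), ‖p‖ < δ := by
    have := Metric.ball_mem_nhds (0 : E) hδ
    filter_upwards [this] with p hp
    simpa using hp
  have hev2 : ∀ᶠ p in 𝓝 (0 : E), ∀ t ∈ sphere (0 : ℂ) ρ, g (p, t) ≠ 0 := by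
    refine IsCompact.eventually_forall_of_forall_eventually (isCompact_sphere (0 : ℂ) ρ) (P := fun (p : E) (t : ℂ) => g (p, t) ≠ 0) ?_
    intro t ht
    have hc : ContinuousAt g (0, t) := ((han 0 (by simpa using hδ) t (sphere_subset_closedBall ht)).1).continuousAt
    exact hc.eventually_ne (hn0 t ht)
  -- (2) the number of zeros
  have hfac : ∀ p : E, ‖p‖ < δ → (∀ t ∈ sphere (0 : ℂ) ρ, g (p, t) ≠ 0) →
      ∃ (ν : ℕ) (r : Fin ν → ℂ) (w : ℂ → ℂ), (∀ i, ‖r i‖ < ρ) ∧ (∀ t ∈ closedBall (0 : ℂ) ρ, AnalyticAt ℂ w t ∧ w t ≠ 0) ∧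
      ∀ t ∈ closedBall (0 : ℂ) ρ, (fun t => g (p, t)) =ᶠ[𝓝 t] fun t => (∏ i, (t - r i)) * w t := by
    intro p hp hn
    refine exists_fac hρ (fun t ht => ?_) hn
    have hin : AnalyticAt ℂ (fun t : ℂ => ((p, t) : E × ℂ)) t := analyticAt_const.prod analyticAt_id
    exact (han p hp t ht).1.comp hin
  have hδ0 : ‖(0 : E)‖ < δ := by simpa using hδ
  obtain ⟨ν, r₀, w₀, hr₀, hw₀, hφ₀⟩ := hfac 0 hδ0 hn0
  have hA1 : AA g ρ (fun _ => 1) 0 = (ν : ℂ) := by
    rw [AA_eq hρ (fun t ht => (han 0 hδ0 t ht).1) (fun t _ => analyticAt_const) hr₀ hw₀ hφ₀]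
    simp
  have hA1c : ContinuousAt (AA g ρ (fun _ => 1)) 0 :=
    (AA_analytic hρ (fun t ht => (han 0 hδ0 t (sphere_subset_closedBall ht)).1) (fun t _ => analyticAt_const) hn0).continuousAt
  have hev3 : ∀ᶠ p in 𝓝 (0 : E), ‖AA g ρ (fun _ => 1) p - (ν : ℂ)‖ < 1 := by
    have := Metric.continuousAt_iff.mp hA1c 1 one_pos
    obtain ⟨η, hη, hη'⟩ := this
    filter_upwards [Metric.ball_mem_nhds (0 : E) hη] with p hp
    have h2 := hη' hp
    rwa [dist_eq_norm, hA1] at h2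
  -- (3) the functions
  obtain ⟨P, hP⟩ := esymm_newton ν
  let G : ℕ → E × ℂ → ℂ := fun c z => ∑ j : Fin m, (c : ℂ) ^ (j : ℕ) * h j z
  have hG : ∀ c (z : E × ℂ), (∀ j, AnalyticAt ℂ (h j) z) → AnalyticAt ℂ (G c) z := by
    intro c z hz
    exact Finset.analyticAt_fun_sum _ (fun j _ => analyticAt_const.mul (hz j))
  refine ⟨ν * m + 1, fun c p => MvPolynomial.aeval (fun k : Fin ν => AA g ρ (fun z => G c z ^ ((k : ℕ) + 1)) p) P, ρ, hρ, hρε, ?_, ?_⟩
  · intro c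
    refine AnalyticAt.aeval_mvPolynomial (fun k => ?_) P
    exact AA_analytic hρ (fun t ht => (han 0 hδ0 t (sphere_subset_closedBall ht)).1)
      (fun t ht => (hG c _ (han 0 hδ0 t (sphere_subset_closedBall ht)).2).pow _) hn0
  · filter_upwards [hev1, hev2, hev3] with p hp hn h3
    obtain ⟨ν', r, w, hr, hw, hφ⟩ := hfac p hp hn
    have hA1' : AA g ρ (fun _ => 1) p = (ν' : ℂ) := by
      rw [AA_eq hρ (fun t ht => (han p hp t ht).1) (fun t _ => analyticAt_const) hr hw hφ]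
      simp
    have hνν : ν' = ν := by
      rw [hA1'] at h3
      have h4 : ‖(((ν' : ℤ) - (ν : ℤ) : ℤ) : ℂ)‖ < 1 := by push_cast; exact h3
      rw [Complex.norm_intCast] at h4
      have h5 : |(ν' : ℤ) - (ν : ℤ)| < 1 := by exact_mod_cast h4
      rw [Int.abs_lt_one_iff] at h5
      omega
    subst hνν
    have hval : ∀ c : ℕ, MvPolynomial.aeval (fun k : Fin ν' => AA g ρ (fun z => G c z ^ ((k : ℕ) + 1)) p) P = ∏ i, G c (p, r i) := by
      intro c
      rw [hP (fun i => G c (p, r i)), MvPolynomial.aeval_eq_eval]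
      congr 1
      congr 1
      funext k
      exact (AA_eq (H := fun z => G c z ^ ((k : ℕ) + 1)) hρ (fun t ht => (han p hp t ht).1)
        (fun t ht => (hG c _ (han p hp t ht).2).fun_pow _) hr hw hφ)
    simp only [hval, G]
    rw [prod_zero_iff (fun i j => h j (p, r i))]
    constructor
    · rintro ⟨i, hi⟩
      refine ⟨r i, hr i, ?_, hi⟩
      exact (zero_iff hw hφ (t := r i) (by rw [mem_closedBall_zero_iff]; exact (hr i).le)).mpr ⟨i, rfl⟩
    · rintro ⟨t, ht, hgt, hht⟩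
      obtain ⟨i, hi⟩ := (zero_iff hw hφ (t := t) (by rw [mem_closedBall_zero_iff]; exact ht.le)).mp hgt
      exact ⟨i, fun j => hi ▸ hht j⟩

end Pool.Agent.H22.HF
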