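import Mathlib

/-!
# HF SardC: a holomorphic function has countably many critical values

Induction on the dimension.

1. Locality: it is enough that every `x₀ ∈ U` has a neighbourhood `V` such that the image of the critical points in `V` is countable (`TopologicalSpace.countable_cover_nhdsWithin`).
2. Let `V ⊆ U` be a ball around `x₀`.  If `fderiv f = 0` on `V` then `f` is constant on `V`.  Otherwise there is `e` such that `h x = fderiv f x e` is not identically zero on `V`; the critical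
   points in `V` are zeros of `h`.  Let `Q` be a countable dense subset of `E`; for `w ∈ Q` put `g_0 = h`, `g_{n+1} x = fderiv g_n x w` (analytic on `U`).  Let `x ∈ V` be a zero of `h`.  There is `w ∈ Q` with
   `x + w ∈ V`, `h (x + w) ≠ 0` (`{h ≠ 0} ∩ V` is open, not empty), so `t ↦ h (x + t w)` is not identically zero on `{t : x + t w ∈ V}` (convex, contains `0` and `1`), so some derivative at `t = 0` is not
   zero, that is some `g_n x ≠ 0`; take the least such `n`: `n ≥ 1`, and `g = g_{n-1}` has `g x = 0`, `fderiv g x ≠ 0`.  So the critical points in `V` lie in the union of countably many sets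
   `{x ∈ V : fderiv f x = 0, g x = 0, fderiv g x ≠ 0}`.  By locality (as in 1.) it is enough: every point `x₁` of such a set has a neighbourhood in which the image of this set is countable.
3. Let `K = ker (fderiv g x₁)`, of dimension `d - 1`, and `Φ : E → ℂ × K`, `Φ y = (g y, π (y - x₁))` with a linear projection `π` onto `K`; its derivative at `x₁` is invertible, let `Ψ` be the local inverse
   (analytic: `ContDiffAt.toOpenPartialHomeomorph`, `ContDiffAt.to_localInverse` with smoothness `ω`, or `OpenPartialHomeomorph` and `analyticAt_symm`), `ψ k = Ψ (0, k)`, analytic near `0` in `K`.  The points `y` near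
   `x₁` with `g y = 0` are `ψ k`, `k = π (y - x₁)`, and `fderiv (f ∘ ψ) k = 0` if `fderiv f y = 0`.  Induction hypothesis for `f ∘ ψ`.
-/

set_option autoImplicit false

open Metric Set Filter Topology

namespace Pool.Agent.H22.HF

private theorem SardC_local {E : Type} [TopologicalSpace E] [SecondCountableTopology E] {f : E → ℂ} {S : Set E}
    (h : ∀ x ∈ S, ∃ V ∈ 𝓝 x, (f '' (S ∩ V)).Countable) : (f '' S).Countable := by
  classical
  choose! V hV hc using h
  obtain ⟨t, htS, ht, hcov⟩ := TopologicalSpace.countable_cover_nhdsWithin (f := fun x => S ∩ V x) (s := S)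
    (fun x hx => inter_mem self_mem_nhdsWithin (mem_nhdsWithin_of_mem_nhds (hV x hx)))
  have h1 : f '' S ⊆ ⋃ x ∈ t, f '' (S ∩ V x) := by
    rintro _ ⟨y, hy, rfl⟩
    obtain ⟨x, hx, hyx⟩ := mem_iUnion₂.1 (hcov hy)
    exact mem_iUnion₂.2 ⟨x, hx, mem_image_of_mem f hyx⟩
  exact (ht.biUnion fun x hx => hc x (htS hx)).mono h1

/-- the derivative of `g` in the direction `w` -/
private noncomputable def SardC_D {E : Type} [NormedAddCommGroup E] [NormedSpace ℂ E] (w : E) (g : E → ℂ) : E → ℂ := fun x => fderiv ℂ g x w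

private theorem SardC_Dan {E : Type} [NormedAddCommGroup E] [NormedSpace ℂ E] (w : E) {g : E → ℂ} {U : Set E} (hg : ∀ x ∈ U, AnalyticAt ℂ g x) :
    ∀ x ∈ U, AnalyticAt ℂ (SardC_D w g) x := by
  intro x hx
  have h1 : AnalyticAt ℂ (fderiv ℂ g) x := (hg x hx).fderiv
  exact AnalyticAt.comp (g := fun L : E →L[ℂ] ℂ => L w) (f := fderiv ℂ g) ((ContinuousLinearMap.apply ℂ ℂ w).analyticAt _) h1

private theorem SardC_Dit {E : Type} [NormedAddCommGroup E] [NormedSpace ℂ E] (w : E) {g : E → ℂ} {U : Set E} (hg : ∀ x ∈ U, AnalyticAt ℂ g x) (n : ℕ) :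
    ∀ x ∈ U, AnalyticAt ℂ ((SardC_D w)^[n] g) x := by
  induction n with
  | zero => exact hg
  | succ n ih =>
    rw [Function.iterate_succ_apply']
    exact SardC_Dan w ih

private theorem SardC_exists {E : Type} [NormedAddCommGroup E] [NormedSpace ℂ E] {h : E → ℂ} {V : Set E} (hh : ∀ x ∈ V, AnalyticAt ℂ h x)
    (hV : Convex ℝ V) (hVo : IsOpen V) {x w : E} (hx : x ∈ V) (hw : x + w ∈ V) (hne : h (x + w) ≠ 0) : ∃ n, (SardC_D w)^[n] h x ≠ 0 := by
  by_contra hcon
  have hcon' : ∀ n, (SardC_D w)^[n] h x = 0 := by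
    intro n
    by_contra h1
    exact hcon ⟨n, h1⟩
  set T : Set ℂ := {t | x + t • w ∈ V} with hT
  have hcont : Continuous fun t : ℂ => x + t • w := by fun_prop
  have hTo : IsOpen T := hVo.preimage hcont
  have hTc : Convex ℝ T := by
    intro s hs t ht a b ha hb hab
    have h1 : x + (a • s + b • t) • w = a • (x + s • w) + b • (x + t • w) := by
      have h2 : x = a • x + b • x := by rw [← add_smul, hab, one_smul]
      conv_lhs => rw [h2]
      rw [smul_add, smul_add, add_smul, smul_assoc, smul_assoc]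
      abel
    show x + (a • s + b • t) • w ∈ V
    rw [h1]
    exact hV hs ht ha hb hab
  have h0T : (0 : ℂ) ∈ T := by
    show x + (0 : ℂ) • w ∈ V
    rwa [zero_smul, add_zero]
  have h1T : (1 : ℂ) ∈ T := by
    show x + (1 : ℂ) • w ∈ V
    rwa [one_smul]
  have hlin : ∀ t : ℂ, AnalyticAt ℂ (fun t : ℂ => x + t • w) t := fun t => by fun_prop
  have hφ : ∀ t ∈ T, AnalyticAt ℂ (fun t : ℂ => h (x + t • w)) t := fun t ht =>
    AnalyticAt.comp (g := h) (f := fun t : ℂ => x + t • w) (hh _ ht) (hlin t)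
  have hder : ∀ n, ∀ t ∈ T, iteratedDeriv n (fun t : ℂ => h (x + t • w)) t = (SardC_D w)^[n] h (x + t • w) := by
    intro n
    induction n with
    | zero =>
      intro t ht
      rw [iteratedDeriv_zero]
      rfl
    | succ n ih =>
      intro t ht
      rw [iteratedDeriv_succ, Function.iterate_succ_apply']
      have h1 : iteratedDeriv n (fun t : ℂ => h (x + t • w)) =ᶠ[𝓝 t] fun t => (SardC_D w)^[n] h (x + t • w) := by
        filter_upwards [hTo.mem_nhds ht] with s hs
        exact ih s hs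
      rw [h1.deriv_eq]
      have h2 : HasFDerivAt ((SardC_D w)^[n] h) (fderiv ℂ ((SardC_D w)^[n] h) (x + t • w)) (x + t • w) :=
        (SardC_Dit w hh n _ ht).differentiableAt.hasFDerivAt
      have h3 : HasDerivAt (fun t : ℂ => x + t • w) w t := by
        have h4 : HasDerivAt (fun t : ℂ => x + t • w) ((1 : ℂ) • w) t := ((hasDerivAt_id t).smul_const w).const_add x
        rwa [one_smul] at h4
      exact (h2.comp_hasDerivAt t h3).deriv
  have h0 : ∀ n, iteratedDeriv n (fun t : ℂ => h (x + t • w)) 0 = 0 := by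
    intro n
    rw [hder n 0 h0T, zero_smul, add_zero]
    exact hcon' n
  have h5 := (hφ 0 h0T).hasFPowerSeriesAt
  have h6 : (FormalMultilinearSeries.ofScalars ℂ fun n => iteratedDeriv n (fun t : ℂ => h (x + t • w)) 0 / ((n.factorial : ℕ) : ℂ)) = 0 := by
    have h7 : (fun n : ℕ => iteratedDeriv n (fun t : ℂ => h (x + t • w)) 0 / ((n.factorial : ℕ) : ℂ)) = 0 := by
      funext n
      rw [h0 n, zero_div]
      rfl
    rw [h7]
    exact FormalMultilinearSeries.ofScalars_series_eq_zero_of_scalar_zero ℂ ℂ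
  rw [h6] at h5
  have h8 := h5.eventually_eq_zero
  have h9 := AnalyticOnNhd.eqOn_zero_of_preconnected_of_eventuallyEq_zero (f := fun t : ℂ => h (x + t • w)) (U := T) hφ hTc.isPreconnected h0T h8
  have h10 := h9 h1T
  simp only [one_smul, Pi.zero_apply] at h10
  exact hne h10

private theorem SardC_step {E : Type} [NormedAddCommGroup E] [NormedSpace ℂ E] [FiniteDimensional ℂ E] {n : ℕ} (hE : Module.finrank ℂ E = n + 1)
    (IH : ∀ (K : Submodule ℂ E), Module.finrank ℂ K = n → ∀ (φ : K → ℂ) (W : Set K), IsOpen W → (∀ x ∈ W, AnalyticAt ℂ φ x) →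
      (φ '' {x | x ∈ W ∧ fderiv ℂ φ x = 0}).Countable)
    {f g : E → ℂ} {U : Set E} (hU : IsOpen U) (hf : ∀ x ∈ U, AnalyticAt ℂ f x) (hg : ∀ x ∈ U, AnalyticAt ℂ g x) :
    (f '' {x | x ∈ U ∧ fderiv ℂ f x = 0 ∧ g x = 0 ∧ fderiv ℂ g x ≠ 0}).Countable := by
  have : CompleteSpace E := FiniteDimensional.complete ℂ E
  have : ProperSpace E := FiniteDimensional.proper ℂ E
  refine SardC_local fun x₁ hx₁ => ?_
  obtain ⟨hxU, -, hgx, hL⟩ := hx₁
  set L := fderiv ℂ g x₁ with hLdef
  have hKC : Submodule.ClosedComplemented (LinearMap.ker (L : E →ₗ[ℂ] ℂ)) := Submodule.ClosedComplemented.of_finiteDimensional _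
  have hdim : Module.finrank ℂ (LinearMap.ker (L : E →ₗ[ℂ] ℂ)) + 1 = Module.finrank ℂ E :=
    Module.Dual.finrank_ker_add_one_of_ne_zero (f := (L : E →ₗ[ℂ] ℂ)) (fun h => hL (by
      ext v
      exact congrArg (fun M : E →ₗ[ℂ] ℂ => M v) h))
  generalize hKdef : LinearMap.ker (L : E →ₗ[ℂ] ℂ) = K at hKC hdim
  obtain ⟨p, hp⟩ := hKC
  have hKn : Module.finrank ℂ K = n := by omega
  set A : E →L[ℂ] ℂ × K := L.prod p with hA
  have hAinj : Function.Injective (A : E →ₗ[ℂ] ℂ × K) := by
    rw [injective_iff_map_eq_zero]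
    intro v hv
    have h1 : L v = 0 := congrArg Prod.fst hv
    have h2 : p v = 0 := congrArg Prod.snd hv
    have h3 : v ∈ K := by
      rw [← hKdef]
      exact h1
    have h4 := hp ⟨v, h3⟩
    have h5 : p v = ⟨v, h3⟩ := h4
    rw [h2] at h5
    exact (congrArg Subtype.val h5).symm
  have hfr : Module.finrank ℂ E = Module.finrank ℂ (ℂ × K) := by
    rw [Module.finrank_prod, Module.finrank_self, hKn, hE]
    omega
  set e : E ≃L[ℂ] ℂ × K := (LinearMap.linearEquivOfInjective (A : E →ₗ[ℂ] ℂ × K) hAinj hfr).toContinuousLinearEquiv with he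
  have heA : (e : E →L[ℂ] ℂ × K) = A := by
    ext v <;> rfl
  set Φ : E → ℂ × K := fun y => (g y, p (y - x₁)) with hΦ
  have hΦan : AnalyticAt ℂ Φ x₁ := by
    refine AnalyticAt.prod (hg x₁ hxU) ?_
    have h1 : AnalyticAt ℂ (fun y : E => y - x₁) x₁ := by fun_prop
    exact AnalyticAt.comp (g := p) (f := fun y : E => y - x₁) (p.analyticAt _) h1
  have hΦd : HasFDerivAt Φ A x₁ := by
    refine HasFDerivAt.prodMk (hg x₁ hxU).differentiableAt.hasFDerivAt ?_
    have h1 : HasFDerivAt (fun y : E => y - x₁) (ContinuousLinearMap.id ℂ E) x₁ := (hasFDerivAt_id x₁).sub_const x₁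
    exact p.hasFDerivAt.comp x₁ h1
  have hΦs : HasStrictFDerivAt Φ (e : E →L[ℂ] ℂ × K) x₁ := by
    have h1 := hΦan.hasStrictFDerivAt
    rwa [hΦd.fderiv, ← heA] at h1
  set Ψ := HasStrictFDerivAt.toOpenPartialHomeomorph Φ hΦs with hΨ
  have hΨc : (Ψ : E → ℂ × K) = Φ := hΦs.toOpenPartialHomeomorph_coe
  have hsrc : x₁ ∈ Ψ.source := hΦs.mem_toOpenPartialHomeomorph_source
  have hΦ0 : Φ x₁ = (0, 0) := by
    simp only [hΦ, hgx, sub_self, map_zero]
  have hsym : AnalyticAt ℂ Ψ.symm (0, 0) := by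
    have h1 : AnalyticAt ℂ Ψ.symm (Ψ x₁) := Ψ.analyticAt_symm' (i := e) hsrc (by rw [hΨc]; exact hΦan) (by rw [hΨc, hΦd.fderiv, heA])
    rwa [hΨc, hΦ0] at h1
  have hsym0 : Ψ.symm (0, 0) = x₁ := by
    have h1 := Ψ.left_inv hsrc
    rwa [hΨc, hΦ0] at h1
  have hι : ∀ k : K, AnalyticAt ℂ (fun k : K => ((0 : ℂ), k)) k := fun k => by fun_prop
  have hιc : Continuous fun k : K => ((0 : ℂ), k) := by fun_prop
  set W : Set K := interior {k | AnalyticAt ℂ Ψ.symm (0, k) ∧ Ψ.symm (0, k) ∈ U} with hW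
  have hW0 : (0 : K) ∈ W := by
    rw [hW, mem_interior_iff_mem_nhds]
    have h1 : ∀ᶠ q in 𝓝 ((0 : ℂ), (0 : K)), AnalyticAt ℂ Ψ.symm q ∧ Ψ.symm q ∈ U := by
      refine hsym.eventually_analyticAt.and ?_
      exact hsym.continuousAt.eventually (by rw [hsym0]; exact hU.mem_nhds hxU)
    exact (hιc.tendsto 0).eventually h1
  have hWprop : ∀ k ∈ W, AnalyticAt ℂ Ψ.symm (0, k) ∧ Ψ.symm (0, k) ∈ U := fun k hk =>
    interior_subset (s := {k : K | AnalyticAt ℂ Ψ.symm (0, k) ∧ Ψ.symm (0, k) ∈ U}) hk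
  have hcnt := IH K hKn (fun k => f (Ψ.symm (0, k))) W isOpen_interior (fun k hk => by
    have h1 : AnalyticAt ℂ (fun k : K => Ψ.symm (0, k)) k := AnalyticAt.comp (g := Ψ.symm) (f := fun k : K => ((0 : ℂ), k)) (hWprop k hk).1 (hι k)
    exact AnalyticAt.comp (g := f) (f := fun k : K => Ψ.symm (0, k)) (hf _ (hWprop k hk).2) h1)
  refine ⟨Ψ.source ∩ {y | p (y - x₁) ∈ W}, inter_mem (Ψ.open_source.mem_nhds hsrc) ?_, hcnt.mono ?_⟩
  · have h1 : Continuous fun y : E => p (y - x₁) := by fun_prop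
    refine (isOpen_interior.preimage h1).mem_nhds ?_
    show p (x₁ - x₁) ∈ W
    rw [sub_self, map_zero]
    exact hW0
  · rintro _ ⟨y, ⟨⟨hyU, hfy, hgy, -⟩, hys, hyW⟩, rfl⟩
    have hyW' : p (y - x₁) ∈ W := hyW
    have h1 : Ψ.symm (0, p (y - x₁)) = y := by
      have h2 := Ψ.left_inv hys
      have h3 : Ψ y = (0, p (y - x₁)) := by
        rw [hΨc]
        simp only [hΦ, hgy]
      rwa [h3] at h2
    refine ⟨p (y - x₁), ⟨hyW', ?_⟩, by simp only [h1]⟩
    have h4 : DifferentiableAt ℂ (fun k : K => Ψ.symm (0, k)) (p (y - x₁)) :=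
      (AnalyticAt.comp (g := Ψ.symm) (f := fun k : K => ((0 : ℂ), k)) (hWprop _ hyW').1 (hι _)).differentiableAt
    have h5 : HasFDerivAt f (0 : E →L[ℂ] ℂ) (Ψ.symm (0, p (y - x₁))) := by
      rw [h1, ← hfy]
      exact (hf y hyU).differentiableAt.hasFDerivAt
    have h6 := HasFDerivAt.comp (g := f) (f := fun k : K => Ψ.symm (0, k)) (p (y - x₁)) h5 h4.hasFDerivAt
    have h7 := h6.fderiv
    rw [ContinuousLinearMap.zero_comp] at h7
    exact h7

private theorem SardC_aux (n : ℕ) : ∀ (E : Type) [NormedAddCommGroup E] [NormedSpace ℂ E] [FiniteDimensional ℂ E], Module.finrank ℂ E = n →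
    ∀ (f : E → ℂ) (U : Set E), IsOpen U → (∀ x ∈ U, AnalyticAt ℂ f x) → (f '' {x | x ∈ U ∧ fderiv ℂ f x = 0}).Countable := by
  induction n with
  | zero =>
    intro E _ _ _ hE f U hU hf
    have : Subsingleton E := Module.finrank_zero_iff.1 hE
    exact (Set.to_countable _).image f
  | succ n ih =>
    intro E _ _ _ hE f U hU hf
    have : CompleteSpace E := FiniteDimensional.complete ℂ E
    have : ProperSpace E := FiniteDimensional.proper ℂ E
    let _ : NormedSpace ℝ E := NormedSpace.restrictScalars ℝ ℂ E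
    refine SardC_local fun x₀ hx₀ => ?_
    obtain ⟨ρ, hρ, hρU⟩ := Metric.isOpen_iff.1 hU x₀ hx₀.1
    refine ⟨ball x₀ ρ, ball_mem_nhds x₀ hρ, ?_⟩
    by_cases hcase : ∀ x ∈ ball x₀ ρ, fderiv ℂ f x = 0
    · refine (Set.countable_singleton (f x₀)).mono ?_
      rintro _ ⟨y, ⟨-, hy⟩, rfl⟩
      exact isOpen_ball.is_const_of_fderiv_eq_zero (𝕜 := ℂ) (convex_ball x₀ ρ).isPreconnected
        (fun x hx => (hf x (hρU hx)).differentiableAt.differentiableWithinAt) (fun x hx => hcase x hx) hy (mem_ball_self hρ)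
    · push Not at hcase
      obtain ⟨x₂, hx₂, hne⟩ := hcase
      obtain ⟨e, he⟩ : ∃ e, fderiv ℂ f x₂ e ≠ 0 := by
        by_contra h1
        push Not at h1
        exact hne (ContinuousLinearMap.ext h1)
      obtain ⟨Q, hQc, hQd⟩ := TopologicalSpace.exists_countable_dense E
      have hh := SardC_Dan e hf
      have hcov : f '' ({x | x ∈ U ∧ fderiv ℂ f x = 0} ∩ ball x₀ ρ) ⊆ ⋃ w ∈ Q, ⋃ m : ℕ,
          f '' {x | x ∈ U ∧ fderiv ℂ f x = 0 ∧ (SardC_D w)^[m] (SardC_D e f) x = 0 ∧ fderiv ℂ ((SardC_D w)^[m] (SardC_D e f)) x ≠ 0} := by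
        rintro _ ⟨x, ⟨⟨hxU, hfx⟩, hxb⟩, rfl⟩
        have hO : IsOpen ((fun w : E => x + w) ⁻¹' (ball x₀ ρ ∩ SardC_D e f ⁻¹' {0}ᶜ)) := by
          refine IsOpen.preimage (by fun_prop) ?_
          exact ContinuousOn.isOpen_inter_preimage (fun y hy => (hh y (hρU hy)).continuousAt.continuousWithinAt) isOpen_ball isOpen_compl_singleton
        obtain ⟨w, hwO, hwQ⟩ := hQd.inter_open_nonempty _ hO ⟨x₂ - x, by
          show x + (x₂ - x) ∈ ball x₀ ρ ∩ SardC_D e f ⁻¹' {0}ᶜ
          rw [add_sub_cancel]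
          exact ⟨hx₂, he⟩⟩
        obtain ⟨hwV, hwn⟩ := hwO
        have hex := SardC_exists (fun y hy => hh y (hρU hy)) (convex_ball x₀ ρ) isOpen_ball hxb hwV hwn
        classical
        have hspec := Nat.find_spec hex
        have hmin := fun m (hm : m < Nat.find hex) => Nat.find_min hex hm
        generalize Nat.find hex = m at hspec hmin
        rcases m with _ | m
        · exfalso
          apply hspec
          show fderiv ℂ f x e = 0
          rw [hfx]
          rfl
        · have h1 : (SardC_D w)^[m] (SardC_D e f) x = 0 := by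
            by_contra h2
            exact hmin m (Nat.lt_succ_self m) h2
          refine mem_iUnion₂.2 ⟨w, hwQ, mem_iUnion.2 ⟨m, mem_image_of_mem f ⟨hxU, hfx, h1, fun h2 => ?_⟩⟩⟩
          apply hspec
          rw [Function.iterate_succ_apply']
          show fderiv ℂ ((SardC_D w)^[m] (SardC_D e f)) x w = 0
          rw [h2]
          rfl
      refine Set.Countable.mono hcov (hQc.biUnion fun w _ => Set.countable_iUnion fun m => ?_)
      exact SardC_step hE (fun K hK φ W hW hφ => ih K hK φ W hW hφ) hU hf (SardC_Dit w hh m)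

theorem countable_crit {E : Type} [NormedAddCommGroup E] [NormedSpace ℂ E] [FiniteDimensional ℂ E] {f : E → ℂ} {U : Set E} (hU : IsOpen U)
    (hf : ∀ x ∈ U, AnalyticAt ℂ f x) : (f '' {x | x ∈ U ∧ fderiv ℂ f x = 0}).Countable :=
  SardC_aux (Module.finrank ℂ E) E rfl f U hU hf

end Pool.Agent.H22.HF
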