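import Pool.Agent.H22.HF.Div
import Pool.Agent.H22.HF.Nrm
import Pool.Agent.H22.HF.SardC

/-!
# HF Dich: the elimination dichotomy

`dichotomy`: let `g j` be finitely many functions analytic at `0 ∈ ℂ × E`.  Either there is no common zero `(s, x)` near `0` with `s ≠ 0`, or for every `ε > 0` and all small
`s ≠ 0` there is a common zero `(s, x)` with `‖x‖ < ε`.

`dich_fun`: on the germ at `x₀` of the common zeros of `g j` an analytic function `φ` is constant or takes all values near `φ x₀`.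

`const_on_crit`: a holomorphic function is locally constant on its critical set.
-/

set_option autoImplicit false

open Metric Set Filter Topology

namespace Pool.Agent.H22.HF

/-- a germ which is not zero is not zero on some line through the origin -/
private theorem line_exists {E : Type} [NormedAddCommGroup E] [NormedSpace ℂ E] {φ : E → ℂ} (hφ : AnalyticAt ℂ φ 0) (hne : ¬ ∀ᶠ x in 𝓝 (0 : E), φ x = 0) :
    ∃ l : E, ¬ ∀ᶠ t in 𝓝 (0 : ℂ), φ (t • l) = 0 := by
  by_contra hcon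
  push Not at hcon
  apply hne
  obtain ⟨r, hr, hball⟩ := Metric.eventually_nhds_iff_ball.1 hφ.eventually_analyticAt
  filter_upwards [ball_mem_nhds (0 : E) hr] with x hx
  have hlin : ∀ t : ℂ, AnalyticAt ℂ (fun t : ℂ => t • x) t := fun t => analyticAt_id.smul analyticAt_const
  have hU : Convex ℝ {t : ℂ | t • x ∈ ball (0 : E) r} := by
    intro a ha b hb p q hp hq hpq
    simp only [mem_ofPred_eq, mem_ball_zero_iff] at ha hb ⊢
    have e : (p • a + q • b) • x = p • (a • x) + q • (b • x) := by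
      rw [add_smul]
      congr 1
      · rw [← smul_assoc]
      · rw [← smul_assoc]
    rw [e]
    calc ‖p • (a • x) + q • (b • x)‖ ≤ ‖p • (a • x)‖ + ‖q • (b • x)‖ := norm_add_le _ _
      _ = p * ‖a • x‖ + q * ‖b • x‖ := by
        have e1 : ‖p • (a • x)‖ = p * ‖a • x‖ := by rw [norm_smul p (a • x), Real.norm_of_nonneg hp]
        have e2 : ‖q • (b • x)‖ = q * ‖b • x‖ := by rw [norm_smul q (b • x), Real.norm_of_nonneg hq]
        rw [e1, e2]
      _ < r := by
        rcases eq_or_lt_of_le hp with h0 | h0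
        · have hq1 : q = 1 := by linarith
          rw [← h0, hq1]; linarith
        · have h1 : p * ‖a • x‖ < p * r := mul_lt_mul_of_pos_left ha h0
          have h2 : q * ‖b • x‖ ≤ q * r := mul_le_mul_of_nonneg_left hb.le hq
          have h3 : p * r + q * r = r := by rw [← add_mul, hpq, one_mul]
          linarith
  have han : AnalyticOnNhd ℂ (fun t : ℂ => φ (t • x)) {t : ℂ | t • x ∈ ball (0 : E) r} := fun t ht =>
    AnalyticAt.comp (g := φ) (f := fun t : ℂ => t • x) (hball _ ht) (hlin t)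
  have h0mem : (0 : ℂ) ∈ {t : ℂ | t • x ∈ ball (0 : E) r} := by
    simp only [mem_ofPred_eq, zero_smul, mem_ball_zero_iff, norm_zero]; exact hr
  have h1mem : (1 : ℂ) ∈ {t : ℂ | t • x ∈ ball (0 : E) r} := by
    simp only [mem_ofPred_eq, one_smul]; exact hx
  have hz := han.eqOn_zero_of_preconnected_of_eventuallyEq_zero hU.isPreconnected h0mem (hcon x) h1mem
  simpa using hz

/-- the preparation: divide by powers of the first variable -/
private theorem prep {E : Type} [NormedAddCommGroup E] [NormedSpace ℂ E] [FiniteDimensional ℂ E] {m : ℕ} (g : Fin m → ℂ × E → ℂ) (hg : ∀ j, AnalyticAt ℂ (g j) 0)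
    (hne : ¬ ∀ j, ∀ᶠ y in 𝓝 (0 : ℂ × E), g j y = 0) :
    ∃ (g' : Fin m → ℂ × E → ℂ) (j₀ : Fin m), (∀ j, AnalyticAt ℂ (g' j) 0) ∧ (∀ᶠ y in 𝓝 (0 : ℂ × E), y.1 ≠ 0 → ∀ j, g j y = 0 ↔ g' j y = 0) ∧
      ¬ ∀ᶠ x in 𝓝 (0 : E), g' j₀ (0, x) = 0 := by
  classical
  push Not at hne
  obtain ⟨j₀, hj₀⟩ := hne
  have key : ∀ j, ∃ g' : ℂ × E → ℂ, AnalyticAt ℂ g' 0 ∧ (∀ᶠ y in 𝓝 (0 : ℂ × E), y.1 ≠ 0 → (g j y = 0 ↔ g' y = 0)) ∧
      ((¬ ∀ᶠ y in 𝓝 (0 : ℂ × E), g j y = 0) → ¬ ∀ᶠ x in 𝓝 (0 : E), g' (0, x) = 0) := by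
    intro j
    by_cases hj : ∀ᶠ y in 𝓝 (0 : ℂ × E), g j y = 0
    · refine ⟨fun _ => 0, analyticAt_const, ?_, fun h => absurd hj h⟩
      filter_upwards [hj] with y hy _
      simp [hy]
    · obtain ⟨a, g', h1, h2, h3⟩ := exists_div (hg j) hj
      refine ⟨g', h1, ?_, fun _ => h3⟩
      filter_upwards [h2] with y hy hy1
      rw [hy, mul_eq_zero]
      constructor
      · rintro (h | h)
        · exact absurd h (pow_ne_zero a hy1)
        · exact h
      · exact Or.inr
  choose g' h1 h2 h3 using key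
  refine ⟨g', j₀, h1, ?_, h3 j₀ ?_⟩
  · have := (eventually_all (ι := Fin m)).2 h2
    filter_upwards [this] with y hy hy1 j
    exact hy j hy1
  · simpa using hj₀

theorem dichotomy (k : ℕ) : ∀ {E : Type} [NormedAddCommGroup E] [NormedSpace ℂ E] [FiniteDimensional ℂ E], Module.finrank ℂ E = k → ∀ {m : ℕ} (g : Fin m → ℂ × E → ℂ),
    (∀ j, AnalyticAt ℂ (g j) 0) → (∀ᶠ y : ℂ × E in 𝓝 0, y.1 ≠ 0 → ∃ j, g j y ≠ 0) ∨
      ∀ ε : ℝ, 0 < ε → ∀ᶠ s in 𝓝[≠] (0 : ℂ), ∃ x : E, ‖x‖ < ε ∧ ∀ j, g j (s, x) = 0 := by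
  induction k with
  | zero =>
    intro E _ _ _ hk m g hg
    by_cases hall : ∀ j, ∀ᶠ y in 𝓝 (0 : ℂ × E), g j y = 0
    · right
      intro ε hε
      have h1 := (eventually_all (ι := Fin m)).2 hall
      have h2 : Tendsto (fun s : ℂ => ((s, 0) : ℂ × E)) (𝓝[≠] 0) (𝓝 0) := by
        have : Continuous (fun s : ℂ => ((s, 0) : ℂ × E)) := by fun_prop
        exact (this.tendsto' 0 0 rfl).mono_left nhdsWithin_le_nhds
      filter_upwards [h2.eventually h1] with s hs
      exact ⟨0, by simpa using hε, hs⟩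
    · left
      obtain ⟨g', j₀, h1, h2, h3⟩ := prep g hg hall
      have : Subsingleton E := Module.finrank_zero_iff.1 hk
      have h4 : g' j₀ 0 ≠ 0 := by
        intro h0
        apply h3
        refine Eventually.of_forall fun x => ?_
        have : ((0, x) : ℂ × E) = 0 := by
          rw [Subsingleton.elim x 0]; rfl
        rw [this]; exact h0
      have h5 := (h1 j₀).continuousAt.eventually_ne h4
      filter_upwards [h2, h5] with y hy hy5 hy1
      exact ⟨j₀, fun h => hy5 ((hy hy1 j₀).1 h)⟩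
  | succ k ih =>
    intro E _ _ _ hk m g hg
    by_cases hall : ∀ j, ∀ᶠ y in 𝓝 (0 : ℂ × E), g j y = 0
    · right
      intro ε hε
      have h1 := (eventually_all (ι := Fin m)).2 hall
      have h2 : Tendsto (fun s : ℂ => ((s, 0) : ℂ × E)) (𝓝[≠] 0) (𝓝 0) := by
        have : Continuous (fun s : ℂ => ((s, 0) : ℂ × E)) := by fun_prop
        exact (this.tendsto' 0 0 rfl).mono_left nhdsWithin_le_nhds
      filter_upwards [h2.eventually h1] with s hs
      exact ⟨0, by simpa using hε, hs⟩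
    obtain ⟨g', j₀, h1, h2, h3⟩ := prep g hg hall
    by_cases h4 : g' j₀ 0 = 0
    swap
    · left
      have h5 := (h1 j₀).continuousAt.eventually_ne h4
      filter_upwards [h2, h5] with y hy hy5 hy1
      exact ⟨j₀, fun h => hy5 ((hy hy1 j₀).1 h)⟩
    -- a direction in which `g' j₀` is regular
    have hφ : AnalyticAt ℂ (fun x : E => g' j₀ (0, x)) 0 := by
      have e : AnalyticAt ℂ (fun x : E => ((0, x) : ℂ × E)) 0 := analyticAt_const.prod analyticAt_id
      exact AnalyticAt.comp (g := g' j₀) (f := fun x : E => ((0, x) : ℂ × E)) (h1 j₀) e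
    obtain ⟨l, hl⟩ := line_exists hφ h3
    have hl0 : l ≠ 0 := by
      rintro rfl
      apply hl
      refine Eventually.of_forall fun t => ?_
      rw [smul_zero]; exact h4
    obtain ⟨W, hW⟩ := Submodule.exists_isCompl (Submodule.span ℂ {l})
    have hWk : Module.finrank ℂ W = k := by
      have h5 := Submodule.finrank_add_eq_of_isCompl hW
      rw [finrank_span_singleton hl0, hk] at h5
      omega
    -- coordinates
    let A : (W × ℂ) →ₗ[ℂ] E := W.subtype.comp (LinearMap.fst ℂ W ℂ) + (LinearMap.snd ℂ W ℂ).smulRight l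
    have hA : ∀ w t, A (w, t) = (w : E) + t • l := fun w t => rfl
    have hAb : Function.Bijective A := by
      constructor
      · rw [injective_iff_map_eq_zero]
        rintro ⟨w, t⟩ h
        rw [hA] at h
        have h5 : (w : E) ∈ Submodule.span ℂ {l} := by
          rw [Submodule.mem_span_singleton]
          exact ⟨-t, by rw [neg_smul]; exact (eq_neg_of_add_eq_zero_left h).symm⟩
        have h6 : (w : E) = 0 := by
          have := hW.disjoint
          rw [Submodule.disjoint_def] at this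
          exact this _ h5 w.2
        rw [h6, zero_add] at h
        have h7 : t = 0 := (smul_eq_zero.1 h).resolve_right hl0
        rw [h7]
        have h8 : w = 0 := Subtype.ext h6
        rw [h8]; rfl
      · intro x
        have h5 : x ∈ Submodule.span ℂ {l} ⊔ W := by rw [hW.sup_eq_top]; trivial
        obtain ⟨y, hy, w, hw, hyw⟩ := Submodule.mem_sup.1 h5
        obtain ⟨t, ht⟩ := Submodule.mem_span_singleton.1 hy
        exact ⟨(⟨w, hw⟩, t), by rw [hA, ← hyw, ← ht]; exact add_comm _ _⟩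
    obtain ⟨e, he⟩ : ∃ e : (W × ℂ) ≃L[ℂ] E, ∀ w t, e (w, t) = (w : E) + t • l :=
      ⟨(LinearEquiv.ofBijective A hAb).toContinuousLinearEquiv, fun w t => rfl⟩
    obtain ⟨Lc, hLc⟩ : ∃ Lc : ((ℂ × W) × ℂ) →L[ℂ] (ℂ × E), ∀ s w t, Lc ((s, w), t) = (s, e (w, t)) :=
      ⟨((ContinuousLinearMap.fst ℂ ℂ W).comp (ContinuousLinearMap.fst ℂ (ℂ × W) ℂ)).prod
        ((e : (W × ℂ) →L[ℂ] E).comp (((ContinuousLinearMap.snd ℂ ℂ W).comp (ContinuousLinearMap.fst ℂ (ℂ × W) ℂ)).prod (ContinuousLinearMap.snd ℂ (ℂ × W) ℂ))),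
        fun s w t => rfl⟩
    by_contra hcon
    rw [not_or] at hcon
    obtain ⟨hna, hnb⟩ := hcon
    push Not at hnb
    obtain ⟨ε, hε, hnb⟩ := hnb
    -- small neighbourhoods
    have hLt : Tendsto Lc (𝓝 0) (𝓝 0) := by
      have := Lc.continuous.tendsto 0
      rwa [map_zero] at this
    have hsm : ∀ᶠ y : ℂ × E in 𝓝 0, ‖y.2‖ < ε := by
      have : Tendsto (fun y : ℂ × E => ‖y.2‖) (𝓝 0) (𝓝 0) := by
        have h5 : Continuous (fun y : ℂ × E => ‖y.2‖) := by fun_prop
        exact h5.tendsto' 0 0 (by simp)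
      exact this.eventually_lt_const hε
    obtain ⟨ε₁, hε₁, hball₁⟩ := Metric.eventually_nhds_iff_ball.1 (hLt.eventually (h2.and hsm))
    have hGan : ∀ j, AnalyticAt ℂ (fun y => g' j (Lc y)) 0 := fun j =>
      AnalyticAt.comp (g := g' j) (f := Lc) (by rw [map_zero]; exact h1 j) (Lc.analyticAt 0)
    have hG0 : g' j₀ (Lc 0) = 0 := by rw [map_zero]; exact h4
    have hreg : ¬ ∀ᶠ t in 𝓝 (0 : ℂ), g' j₀ (Lc (0, t)) = 0 := by
      intro h
      apply hl
      filter_upwards [h] with t ht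
      have e1 : Lc ((0 : ℂ × W), t) = (0, t • l) := by
        show Lc (((0 : ℂ), (0 : W)), t) = _
        rw [hLc, he]; simp
      rw [e1] at ht
      exact ht
    obtain ⟨M, R, ε', hε', hε'1, hRan, hR⟩ := exists_norm (hGan j₀) hG0 hreg (fun j y => g' j (Lc y)) hGan hε₁
    rcases ih hWk R hRan with ha | hb
    · -- no common zeros
      apply hna
      have ht : Tendsto (fun y : ℂ × E => ((y.1, (e.symm y.2).1) : ℂ × W)) (𝓝 0) (𝓝 0) := by
        have h5 : Continuous (fun y : ℂ × E => ((y.1, (e.symm y.2).1) : ℂ × W)) := by fun_prop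
        exact h5.tendsto' 0 0 (by simp)
      have ht2 : ∀ᶠ y : ℂ × E in 𝓝 0, ‖(e.symm y.2).2‖ < ε' := by
        have h5 : Tendsto (fun y : ℂ × E => ‖(e.symm y.2).2‖) (𝓝 0) (𝓝 0) := by
          have h6 : Continuous (fun y : ℂ × E => ‖(e.symm y.2).2‖) := by fun_prop
          exact h6.tendsto' 0 0 (by simp)
        exact h5.eventually_lt_const hε'
      filter_upwards [h2, ht.eventually ha, ht.eventually hR, ht2] with y hy2 hya hyR hyt hy1
      by_contra hno
      push Not at hno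
      obtain ⟨c, hc⟩ := hya hy1
      apply hc
      refine (hyR.2 ⟨(e.symm y.2).2, hyt, ?_⟩) c
      have e2 : Lc ((y.1, (e.symm y.2).1), (e.symm y.2).2) = y := by
        rw [hLc]
        have : e ((e.symm y.2).1, (e.symm y.2).2) = y.2 := e.apply_symm_apply y.2
        rw [this]
      have e3 : ∀ j, g' j (Lc ((y.1, (e.symm y.2).1), (e.symm y.2).2)) = 0 := by
        intro j
        rw [e2]
        exact (hy2 hy1 j).1 (hno j)
      exact ⟨e3 j₀, e3⟩
    · -- many common zeros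
      apply hnb
      obtain ⟨ε₂, hε₂, hball₂⟩ := Metric.eventually_nhds_iff_ball.1 hR
      have h5 := hb (min ε₂ ε₁) (lt_min hε₂ hε₁)
      have h6 : ∀ᶠ s in 𝓝[≠] (0 : ℂ), s ≠ 0 ∧ ‖s‖ < min ε₂ ε₁ := by
        refine (eventually_mem_nhdsWithin).and ?_
        exact (Metric.eventually_nhds_iff_ball.2 ⟨min ε₂ ε₁, lt_min hε₂ hε₁, fun s hs => by simpa using hs⟩ : ∀ᶠ s in 𝓝 (0 : ℂ), ‖s‖ < min ε₂ ε₁).filter_mono nhdsWithin_le_nhds
      refine h5.mp (h6.mono ?_)
      rintro s ⟨hs0, hs⟩ ⟨w, hw, hwR⟩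
      have hmem : ((s, w) : ℂ × W) ∈ ball (0 : ℂ × W) ε₂ := by
        rw [mem_ball_zero_iff, Prod.norm_def]
        exact max_lt (hs.trans_le (min_le_left _ _)) (hw.trans_le (min_le_left _ _))
      obtain ⟨t, ht, -, htj⟩ := (hball₂ _ hmem).1 hwR
      have hmem1 : (((s, w), t) : (ℂ × W) × ℂ) ∈ ball (0 : (ℂ × W) × ℂ) ε₁ := by
        rw [mem_ball_zero_iff, Prod.norm_def, Prod.norm_def]
        exact max_lt (max_lt (hs.trans_le (min_le_right _ _)) (hw.trans_le (min_le_right _ _))) (ht.trans_le hε'1)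
      obtain ⟨h7, h8⟩ := hball₁ _ hmem1
      rw [hLc] at h7 h8
      intro hno
      obtain ⟨j, hj⟩ := hno (e (w, t)) h8
      apply hj
      refine (h7 hs0 j).2 ?_
      have := htj j
      rw [hLc] at this
      exact this

theorem dich_fun {E : Type} [NormedAddCommGroup E] [NormedSpace ℂ E] [FiniteDimensional ℂ E] {x₀ : E} {m : ℕ} {g : Fin m → E → ℂ} (hg : ∀ j, AnalyticAt ℂ (g j) x₀)
    {φ : E → ℂ} (hφ : AnalyticAt ℂ φ x₀) : (∀ᶠ x in 𝓝 x₀, (∀ j, g j x = 0) → φ x = φ x₀) ∨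
      ∀ ε : ℝ, 0 < ε → ∀ᶠ s in 𝓝[≠] (0 : ℂ), ∃ x : E, ‖x - x₀‖ < ε ∧ (∀ j, g j x = 0) ∧ φ x = φ x₀ + s := by
  have htr : AnalyticAt ℂ (fun y : ℂ × E => x₀ + y.2) 0 := analyticAt_const.add analyticAt_snd
  have htr0 : x₀ + (0 : ℂ × E).2 = x₀ := by simp
  have hg' : ∀ j, AnalyticAt ℂ (fun y : ℂ × E => g j (x₀ + y.2)) 0 := fun j =>
    AnalyticAt.comp (g := g j) (f := fun y : ℂ × E => x₀ + y.2) (by rw [htr0]; exact hg j) htr
  have hφ' : AnalyticAt ℂ (fun y : ℂ × E => φ (x₀ + y.2) - φ x₀ - y.1) 0 :=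
    ((AnalyticAt.comp (g := φ) (f := fun y : ℂ × E => x₀ + y.2) (by rw [htr0]; exact hφ) htr).sub analyticAt_const).sub analyticAt_fst
  have hG : ∀ j : Fin (m + 1), AnalyticAt ℂ ((Fin.cons (fun y : ℂ × E => φ (x₀ + y.2) - φ x₀ - y.1) (fun j y => g j (x₀ + y.2)) : Fin (m + 1) → ℂ × E → ℂ) j) 0 := by
    intro j
    refine Fin.cases ?_ (fun j => ?_) j
    · simpa using hφ'
    · simpa using hg' j
  rcases dichotomy (Module.finrank ℂ E) rfl _ hG with h | h
  · left
    have ht : Tendsto (fun x : E => ((φ x - φ x₀, x - x₀) : ℂ × E)) (𝓝 x₀) (𝓝 0) := by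
      have h1 : ContinuousAt (fun x : E => ((φ x - φ x₀, x - x₀) : ℂ × E)) x₀ :=
        (hφ.continuousAt.sub continuousAt_const).prodMk (continuousAt_id.sub continuousAt_const)
      have h2 : ((φ x₀ - φ x₀, x₀ - x₀) : ℂ × E) = 0 := by rw [sub_self, sub_self]; rfl
      have h3 := h1.tendsto
      simp only [h2] at h3
      exact h3
    filter_upwards [ht.eventually h] with x hx hz
    by_contra hne
    obtain ⟨j, hj⟩ := hx (sub_ne_zero.2 hne)
    apply hj
    refine Fin.cases ?_ (fun j => ?_) j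
    · simp
    · simpa using hz j
  · right
    intro ε hε
    filter_upwards [h ε hε] with s hs
    obtain ⟨x, hx, hj⟩ := hs
    refine ⟨x₀ + x, by simpa using hx, fun j => ?_, ?_⟩
    · simpa using hj j.succ
    · have := hj 0
      simp only [Fin.cons_zero] at this
      linear_combination this

theorem const_on_crit {E : Type} [NormedAddCommGroup E] [NormedSpace ℂ E] [FiniteDimensional ℂ E] {f : E → ℂ} {x₀ : E} (hf : AnalyticAt ℂ f x₀) :
    ∀ᶠ x in 𝓝 x₀, fderiv ℂ f x = 0 → f x = f x₀ := by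
  obtain ⟨b⟩ : Nonempty (Module.Basis (Fin (Module.finrank ℂ E)) ℂ E) := ⟨Module.finBasis ℂ E⟩
  have hb : ∀ x, fderiv ℂ f x = 0 ↔ ∀ j, fderiv ℂ f x (b j) = 0 := by
    intro x
    constructor
    · intro h j; rw [h]; rfl
    · intro h
      have h1 : (fderiv ℂ f x : E →ₗ[ℂ] ℂ) = 0 := b.ext fun j => h j
      ext y
      exact LinearMap.congr_fun h1 y
  have hg : ∀ j, AnalyticAt ℂ (fun x => fderiv ℂ f x (b j)) x₀ := fun j => ((ContinuousLinearMap.apply ℂ ℂ (b j)).analyticAt _).comp hf.fderiv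
  rcases dich_fun hg hf with h | h
  · filter_upwards [h] with x hx hx0
    exact hx ((hb x).1 hx0)
  · exfalso
    obtain ⟨r, hr, hball⟩ := Metric.eventually_nhds_iff_ball.1 hf.eventually_analyticAt
    have hc := countable_crit (f := f) (isOpen_ball (x := x₀) (ε := r)) hball
    have h1 := h r hr
    have h2 : ∀ᶠ s in 𝓝[≠] (0 : ℂ), s ∈ (fun s : ℂ => f x₀ + s) ⁻¹' (f '' {x | x ∈ ball x₀ r ∧ fderiv ℂ f x = 0}) := by
      filter_upwards [h1] with s hs
      obtain ⟨x, hx, hxj, hxs⟩ := hs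
      exact ⟨x, ⟨by rw [mem_ball, dist_eq_norm]; exact hx, (hb x).2 hxj⟩, hxs⟩
    have h3 : ((fun s : ℂ => f x₀ + s) ⁻¹' (f '' {x | x ∈ ball x₀ r ∧ fderiv ℂ f x = 0})).Countable :=
      hc.preimage (add_right_injective (f x₀))
    have h4 := h3.dense_compl ℂ
    obtain ⟨δ, hδ, hδb⟩ := Metric.eventually_nhds_iff_ball.1 (eventually_nhdsWithin_iff.1 h2)
    have h5 : (ball (0 : ℂ) δ \ {0}).Nonempty := by
      refine ⟨((δ / 2 : ℝ) : ℂ), ?_, ?_⟩
      · rw [mem_ball_zero_iff, Complex.norm_real, Real.norm_of_nonneg (by positivity)]; linarith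
      · rw [mem_singleton_iff, Complex.ofReal_eq_zero]; positivity
    obtain ⟨s, hs, hsc⟩ := h4.inter_open_nonempty _ (isOpen_ball.sdiff isClosed_singleton) h5
    exact hsc (hδb s hs.1 (by simpa using hs.2))

end Pool.Agent.H22.HF
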