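import Pool.Agent.TH.Chr
import Pool.Agent.H22.HF.Dich

/-!
# HF Hits: the zeros of the one-form `om v (d u)` lie over finitely many points

If `ℂ v` is not elliptic.  In the charts: `om v u` is locally constant on the zeros (`const_on_crit`), and either `u` is locally constant on the zeros or the image of the
zeros contains a disc in the leaf `u x + ℂ v` (`dich_fun`).  The set `L` of the `z` such that `b + z v` is in the image of the zeros has only isolated and interior points, so it is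
discrete or `ℂ`.  The second is impossible: the image of the zeros is contained in finitely many leaf discs, and `{ω : ω v ∈ Λ}` is contained in a real line.
-/

set_option autoImplicit false

open Topology Filter Metric

namespace Pool.Agent.TH

open Pool.Agent.H36.BP (EN fs wd Sub)
open Pool.Agent.H14.PP (IsCone CurveAt Tan)
open Pool.Agent.H62.EF (MN pr)
open Pool.Agent.H5.BD (BC evp)
open Pool.Agent.AD (Vd Chart Charts TorusMapV DiscreteSub)
open Pool.Agent.AD.BD (Atlas LC Good qc)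

variable {N : ℕ} {X : Set (EN N)}

/-- `om v` as a linear map -/
private noncomputable def omL (v : Vd 2) : Vd 2 →L[ℂ] ℂ := v 0 • ContinuousLinearMap.proj 1 - v 1 • ContinuousLinearMap.proj 0

private theorem omL_apply (v w : Vd 2) : omL v w = om v w := by
  simp [omL, om]

/-- a linear functional with value `1` at `v`; with `om v` it is a system of coordinates -/
private theorem exists_lam {v : Vd 2} (hv : v ≠ 0) : ∃ lam : Vd 2 →L[ℂ] ℂ, lam v = 1 ∧ ∀ w, om v w = 0 → w = lam w • v := by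
  by_cases h0 : v 0 = 0
  · have h1 : v 1 ≠ 0 := by
      intro h1
      apply hv
      ext i
      fin_cases i
      · exact h0
      · exact h1
    refine ⟨(v 1)⁻¹ • ContinuousLinearMap.proj 1, ?_, ?_⟩
    · simp [h1]
    · intro w hw
      rw [om, h0, zero_mul, zero_sub, neg_eq_zero, mul_eq_zero] at hw
      have hw0 := hw.resolve_left h1
      ext i
      fin_cases i
      · simp [h0, hw0]
      · simp
        field_simp
  · refine ⟨(v 0)⁻¹ • ContinuousLinearMap.proj 0, ?_, ?_⟩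
    · simp [h0]
    · intro w hw
      rw [om, sub_eq_zero] at hw
      ext i
      fin_cases i
      · simp
        field_simp
      · simp
        field_simp
        linear_combination hw

private theorem notMem_near {Λ : AddSubgroup (Vd 2)} (hΛ : DiscreteSub Λ) {w : Vd 2} (hw : w ∉ Λ) : ∀ᶠ w' in 𝓝 w, w' ∉ Λ := by
  obtain ⟨δ, hδ, hd⟩ := hΛ
  by_cases h : ∃ l ∈ Λ, ‖l - w‖ < δ / 2
  · obtain ⟨l, hl, hlw⟩ := h
    have hne : 0 < ‖l - w‖ := by
      rw [norm_pos_iff, sub_ne_zero]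
      rintro rfl
      exact hw hl
    filter_upwards [ball_mem_nhds w (lt_min (half_pos hδ) hne)] with w' hw' hmem
    rw [mem_ball, dist_eq_norm] at hw'
    have h1 : w' - l = 0 := by
      refine hd _ (Λ.sub_mem hmem hl) ?_
      calc ‖w' - l‖ = ‖(w' - w) - (l - w)‖ := by congr 1; abel
        _ ≤ ‖w' - w‖ + ‖l - w‖ := norm_sub_le _ _
        _ < δ / 2 + δ / 2 := add_lt_add (hw'.trans_le (min_le_left _ _)) hlw
        _ = δ := add_halves δ
    rw [sub_eq_zero] at h1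
    rw [h1] at hw'
    exact absurd (hw'.trans_le (min_le_right _ _)) (lt_irrefl _)
  · push Not at h
    filter_upwards [ball_mem_nhds w (half_pos hδ)] with w' hw' hmem
    rw [mem_ball, dist_eq_norm] at hw'
    exact absurd hw' (not_lt.2 (h w' hmem))

namespace Setting

variable (S : Setting X)

private theorem cov_apply (v : Vd 2) (i : Fin S.A.n) {p : Vd 3} (hp : p ∈ ball (0 : Vd 3) 2) (w : Vd 3) :
    fderiv ℂ (fun p => om v (S.β i p)) p w = om v (fderiv ℂ (S.β i) p w) := by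
  have h1 : HasFDerivAt (S.β i) (fderiv ℂ (S.β i) p) p := (S.β_an i p hp).differentiableAt.hasFDerivAt
  have h2 : HasFDerivAt (fun p => om v (S.β i p)) ((omL v).comp (fderiv ℂ (S.β i) p)) p := by
    have h3 := (omL v).hasFDerivAt.comp p h1
    refine h3.congr_of_eventuallyEq (Eventually.of_forall fun y => ?_)
    exact (omL_apply _ _).symm
  rw [h2.fderiv]
  exact omL_apply _ _

private theorem cov_iff (v : Vd 2) (i : Fin S.A.n) (p : Vd 3) :
    S.cov v i p = 0 ↔ ∀ w, om v (fderiv ℂ (S.β i) p w) = 0 := by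
  constructor
  · intro h w
    have h1 : ((omL v).comp (fderiv ℂ (S.β i) p) : Vd 3 →ₗ[ℂ] ℂ) = 0 := by
      refine LinearMap.pi_ext' fun l => ?_
      ext
      have := congrFun h l
      simp only [cov, Pi.zero_apply] at this
      simpa [omL_apply] using this
    have h2 := LinearMap.congr_fun h1 w
    simpa [omL_apply] using h2
  · intro h
    funext l
    exact h _

private theorem cov_zero_iff (v : Vd 2) (i : Fin S.A.n) {p : Vd 3} (hp : p ∈ ball (0 : Vd 3) 2) :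
    S.cov v i p = 0 ↔ fderiv ℂ (fun p => om v (S.β i p)) p = 0 := by
  rw [S.cov_iff v i p]
  constructor
  · intro h
    ext w
    rw [S.cov_apply v i hp]
    exact h w
  · intro h w
    rw [← S.cov_apply v i hp, h]
    rfl

private theorem om_an (v : Vd 2) (i : Fin S.A.n) {p : Vd 3} (hp : p ∈ ball (0 : Vd 3) 2) : AnalyticAt ℂ (fun p => om v (S.β i p)) p := by
  have h := ((omL v).analyticAt (S.β i p)).comp (S.β_an i p hp)
  refine h.congr (Eventually.of_forall fun y => ?_)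
  exact omL_apply _ _

private theorem cov_an (v : Vd 2) (i : Fin S.A.n) (l : Fin 3) {p : Vd 3} (hp : p ∈ ball (0 : Vd 3) 2) : AnalyticAt ℂ (fun p => S.cov v i p l) p := by
  have h := ((omL v).analyticAt _).comp (((ContinuousLinearMap.apply ℂ (Vd 2) (Pi.single l (1 : ℂ) : Vd 3)).analyticAt _).comp (S.β_an i p hp).fderiv)
  refine h.congr (Eventually.of_forall fun y => ?_)
  exact omL_apply _ _

/-- the zeros in the charts -/
private theorem hit_cov (v : Vd 2) {x : EN N} (hx : x ∈ X) {i : Fin S.A.n} (hi : x ∈ (S.A.χ i).U) : S.Hit v x ↔ S.cov v i (S.q i x) = 0 := by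
  have hj : x ∈ (S.A.χ (S.ix x)).U := (S.good_ix hx).2.1
  rw [Hit, S.cov_iff v, S.cov_iff v]
  constructor
  · intro h w
    have h1 := h (S.T i (S.ix x) x w)
    rwa [S.T_beta hx hi hj] at h1
  · intro h w
    have h1 := h (S.T (S.ix x) i x w)
    rwa [S.T_beta hx hj hi] at h1

/-- the local structure of the zeros at a point `x`, in a chart -/
private theorem local_x {v : Vd 2} (hv : v ≠ 0) {x : EN N} (hx : x ∈ X) :
    (∀ᶠ y in 𝓝 x, y ∈ X → S.Hit v y → ∃ c : ℂ, ‖c‖ ≤ 1 ∧ S.u y - S.u x - c • v ∈ S.Λ) ∧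
      ((∀ᶠ y in 𝓝 x, y ∈ X → S.Hit v y → S.u y - S.u x ∈ S.Λ) ∨ ∀ᶠ s in 𝓝[≠] (0 : ℂ), ∃ y ∈ X, S.Hit v y ∧ S.u y - S.u x - s • v ∈ S.Λ) := by
  obtain ⟨lam, hlv, hlam⟩ := exists_lam hv
  have hi : x ∈ (S.A.χ (S.ix x)).U := (S.good_ix hx).2.1
  generalize S.ix x = i at hi
  have hp : S.q i x ∈ ball (0 : Vd 3) 2 := ((S.A.χ i).surj x hx hi).1
  have hqc : Tendsto (fun y => S.q i y) (𝓝 x) (𝓝 (S.q i x)) := ((S.A.χ i).q_an x hi).continuousAt
  have hUev : ∀ᶠ y in 𝓝 x, y ∈ (S.A.χ i).U := (S.A.χ i).isOpen_U.mem_nhds hi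
  have hux : S.u x - S.β i (S.q i x) ∈ S.Λ := S.β_eq i x hx hi
  have hlamc : AnalyticAt ℂ (fun p => lam (S.β i p)) (S.q i x) := (lam.analyticAt _).comp (S.β_an i _ hp)
  -- `om v u` is constant on the zeros
  have hconst : ∀ᶠ p in 𝓝 (S.q i x), p ∈ ball (0 : Vd 3) 2 ∧ (S.cov v i p = 0 → om v (S.β i p) = om v (S.β i (S.q i x))) := by
    filter_upwards [isOpen_ball.mem_nhds hp, Pool.Agent.H22.HF.const_on_crit (S.om_an v i hp)] with p hp1 hp2
    exact ⟨hp1, fun h => hp2 ((S.cov_zero_iff v i hp1).1 h)⟩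
  have hdec : ∀ p, om v (S.β i p) = om v (S.β i (S.q i x)) → S.β i p - S.β i (S.q i x) = (lam (S.β i p) - lam (S.β i (S.q i x))) • v := by
    intro p h
    have h1 : om v (S.β i p - S.β i (S.q i x)) = 0 := by
      rw [← omL_apply, map_sub, omL_apply, omL_apply, h, sub_self]
    have h2 := hlam _ h1
    rwa [map_sub] at h2
  constructor
  · have hsm : ∀ᶠ p in 𝓝 (S.q i x), ‖lam (S.β i p) - lam (S.β i (S.q i x))‖ < 1 := by
      have h1 : Tendsto (fun p => ‖lam (S.β i p) - lam (S.β i (S.q i x))‖) (𝓝 (S.q i x)) (𝓝 0) := by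
        have h3 : ContinuousAt (fun p => ‖lam (S.β i p) - lam (S.β i (S.q i x))‖) (S.q i x) := (hlamc.continuousAt.sub continuousAt_const).norm
        have h2 := h3.tendsto
        simpa using h2
      exact h1.eventually_lt_const one_pos
    filter_upwards [hUev, hqc.eventually hconst, hqc.eventually hsm] with y hyU hyc hys hyX hyH
    have h1 := hdec _ (hyc.2 ((S.hit_cov v hyX hyU).1 hyH))
    refine ⟨lam (S.β i (S.q i y)) - lam (S.β i (S.q i x)), hys.le, ?_⟩
    have h2 : S.u y - S.β i (S.q i y) ∈ S.Λ := S.β_eq i y hyX hyU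
    have h3 : S.u y - S.u x - (lam (S.β i (S.q i y)) - lam (S.β i (S.q i x))) • v = (S.u y - S.β i (S.q i y)) - (S.u x - S.β i (S.q i x)) := by
      rw [← h1]; abel
    rw [h3]
    exact S.Λ.sub_mem h2 hux
  · rcases Pool.Agent.H22.HF.dich_fun (fun l => S.cov_an v i l hp) hlamc with h | h
    · left
      filter_upwards [hUev, hqc.eventually hconst, hqc.eventually h] with y hyU hyc hys hyX hyH
      have hcov := (S.hit_cov v hyX hyU).1 hyH
      have h1 := hdec _ (hyc.2 hcov)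
      rw [hys (fun l => congrFun hcov l), sub_self, zero_smul] at h1
      have h2 : S.u y - S.β i (S.q i y) ∈ S.Λ := S.β_eq i y hyX hyU
      have h3 : S.u y - S.u x = (S.u y - S.β i (S.q i y)) - (S.u x - S.β i (S.q i x)) := by
        have h4 : S.β i (S.q i y) = S.β i (S.q i x) := sub_eq_zero.1 h1
        rw [h4]; abel
      rw [h3]
      exact S.Λ.sub_mem h2 hux
    · right
      obtain ⟨ε, hε, hball⟩ := Metric.eventually_nhds_iff_ball.1 hconst
      filter_upwards [h ε hε] with s hs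
      obtain ⟨p, hp1, hp2, hp3⟩ := hs
      have hpm : p ∈ ball (S.q i x) ε := by rw [mem_ball, dist_eq_norm]; exact hp1
      obtain ⟨hpb, hpc⟩ := hball p hpm
      have hcov : S.cov v i p = 0 := funext hp2
      have h1 := hdec _ (hpc hcov)
      rw [hp3, add_sub_cancel_left] at h1
      obtain ⟨hσX, hσU, hσq⟩ := (S.A.χ i).σ_mem p hpb
      have hσq' : S.q i ((S.A.χ i).σ p) = p := hσq
      refine ⟨(S.A.χ i).σ p, hσX, (S.hit_cov v hσX hσU).2 (by rw [hσq']; exact hcov), ?_⟩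
      have h2 : S.u ((S.A.χ i).σ p) - S.β i (S.q i ((S.A.χ i).σ p)) ∈ S.Λ := S.β_eq i _ hσX hσU
      rw [hσq'] at h2
      have h3 : S.u ((S.A.χ i).σ p) - S.u x - s • v = (S.u ((S.A.χ i).σ p) - S.β i p) - (S.u x - S.β i (S.q i x)) := by
        rw [← h1]; abel
      rw [h3]
      exact S.Λ.sub_mem h2 hux

/-- the zeros are a cone -/
private theorem hit_smul (v : Vd 2) {x : EN N} (hx : x ∈ X) {c : ℂ} (hc : c ≠ 0) : S.Hit v (c • x) ↔ S.Hit v x := by
  have h1 : S.ix (c • x) = S.ix x := by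
    unfold ix
    rw [Pool.Agent.H62.EF.pr_smul x hc]
  have h2 : S.q (S.ix x) (c • x) = S.q (S.ix x) x := (S.A.χ (S.ix x)).q_smul x (S.good_ix hx).2.1 c hc
  rw [Hit, Hit, h1, h2]

include S in
private theorem compact_K : IsCompact (X ∩ sphere (0 : EN N) 1) := by
  have h1 : X ∩ sphere (0 : EN N) 1 = (insert 0 X) ∩ sphere (0 : EN N) 1 := by
    ext x
    constructor
    · rintro ⟨hx, hs⟩
      exact ⟨Set.mem_insert_of_mem _ hx, hs⟩
    · rintro ⟨hx, hs⟩
      refine ⟨?_, hs⟩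
      rcases hx with rfl | hx
      · simp at hs
      · exact hx
  rw [h1]
  exact (isCompact_sphere (0 : EN N) 1).inter_left S.cone.closed

include S in
/-- every point has a multiple of norm one -/
private theorem unit_rep {x : EN N} (hx : x ∈ X) : ∃ c : ℂ, c ≠ 0 ∧ c • x ∈ X ∩ sphere (0 : EN N) 1 := by
  have hx0 : x ≠ 0 := fun h => S.cone.zero_notMem (h ▸ hx)
  have hn : ‖x‖ ≠ 0 := norm_ne_zero_iff.mpr hx0
  have hc : (((‖x‖⁻¹ : ℝ)) : ℂ) ≠ 0 := by
    exact_mod_cast inv_ne_zero hn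
  refine ⟨(((‖x‖⁻¹ : ℝ)) : ℂ), hc, S.cone.smul_mem x hx _ hc, ?_⟩
  rw [mem_sphere_zero_iff_norm, norm_smul, Complex.norm_real, norm_inv, norm_norm]
  exact inv_mul_cancel₀ hn

/-- near a point which is not a zero there are no zeros -/
private theorem not_hit (v : Vd 2) {x : EN N} (hx : x ∈ X) (h : ¬ S.Hit v x) : ∀ᶠ y in 𝓝 x, y ∈ X → ¬ S.Hit v y := by
  have hi : x ∈ (S.A.χ (S.ix x)).U := (S.good_ix hx).2.1
  generalize S.ix x = i at hi
  have hp : S.q i x ∈ ball (0 : Vd 3) 2 := ((S.A.χ i).surj x hx hi).1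
  have hqc : Tendsto (fun y => S.q i y) (𝓝 x) (𝓝 (S.q i x)) := ((S.A.χ i).q_an x hi).continuousAt
  have hUev : ∀ᶠ y in 𝓝 x, y ∈ (S.A.χ i).U := (S.A.χ i).isOpen_U.mem_nhds hi
  rw [S.hit_cov v hx hi] at h
  have h1 : ∃ l, S.cov v i (S.q i x) l ≠ 0 := by
    by_contra hcon
    push Not at hcon
    exact h (funext hcon)
  obtain ⟨l, hl⟩ := h1
  have h2 : ∀ᶠ p in 𝓝 (S.q i x), S.cov v i p l ≠ 0 := (S.cov_an v i l hp).continuousAt.eventually_ne hl
  filter_upwards [hUev, hqc.eventually h2] with y hyU hyl hyX hyH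
  exact hyl (congrFun ((S.hit_cov v hyX hyU).1 hyH) l)

/-- if the zeros at `x` lie over a point different from `b + z v` then also the zeros nearby -/
private theorem far_near {v : Vd 2} (b : Vd 2) (z : ℂ) {x : EN N} (hx : x ∈ X) (h : S.u x - (b + z • v) ∉ S.Λ) :
    ∀ᶠ y : ℂ × EN N in 𝓝 (z, x), y.2 ∈ X → S.u y.2 - (b + y.1 • v) ∉ S.Λ := by
  have hi : x ∈ (S.A.χ (S.ix x)).U := (S.good_ix hx).2.1
  generalize S.ix x = i at hi
  have hp : S.q i x ∈ ball (0 : Vd 3) 2 := ((S.A.χ i).surj x hx hi).1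
  have hqc : ContinuousAt (fun y => S.q i y) x := ((S.A.χ i).q_an x hi).continuousAt
  have hUev : ∀ᶠ y in 𝓝 x, y ∈ (S.A.χ i).U := (S.A.χ i).isOpen_U.mem_nhds hi
  have hux : S.u x - S.β i (S.q i x) ∈ S.Λ := S.β_eq i x hx hi
  have h1 : S.β i (S.q i x) - (b + z • v) ∉ S.Λ := by
    intro h2
    apply h
    have := S.Λ.add_mem hux h2
    rwa [sub_add_sub_cancel] at this
  have hβc : ContinuousAt (fun y => S.β i (S.q i y)) x := ContinuousAt.comp (g := S.β i) (f := fun y => S.q i y) (S.β_an i _ hp).continuousAt hqc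
  have hcont : ContinuousAt (fun y : ℂ × EN N => S.β i (S.q i y.2) - (b + y.1 • v)) (z, x) := by
    refine ContinuousAt.sub ?_ ?_
    · exact ContinuousAt.comp (g := fun y => S.β i (S.q i y)) (f := fun y : ℂ × EN N => y.2) hβc continuousAt_snd
    · exact continuousAt_const.add (continuousAt_fst.smul continuousAt_const)
  have h2 := hcont.eventually (notMem_near S.disc h1)
  have h3 : ∀ᶠ y : ℂ × EN N in 𝓝 (z, x), y.2 ∈ (S.A.χ i).U := continuousAt_snd.eventually hUev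
  filter_upwards [h2, h3] with y hy2 hy3 hyX hmem
  apply hy2
  have h4 : S.u y.2 - S.β i (S.q i y.2) ∈ S.Λ := S.β_eq i _ hyX hy3
  have h5 := S.Λ.sub_mem hmem h4
  have h6 : S.u y.2 - (b + y.1 • v) - (S.u y.2 - S.β i (S.q i y.2)) = S.β i (S.q i y.2) - (b + y.1 • v) := by abel
  rwa [h6] at h5

/-- the points of the line `b + ℂ v` under the zeros -/
private def LL (v b : Vd 2) : Set ℂ := {z | ∃ y ∈ X, S.Hit v y ∧ S.u y - (b + z • v) ∈ S.Λ}

private theorem iso_or_int {v : Vd 2} (hv : v ≠ 0) (b : Vd 2) (z : ℂ) : (∀ᶠ z' in 𝓝 z, z' ≠ z → z' ∉ S.LL v b) ∨ ∀ᶠ z' in 𝓝 z, z' ∈ S.LL v b := by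
  by_cases hB : ∃ x ∈ X, S.Hit v x ∧ S.u x - (b + z • v) ∈ S.Λ ∧ ∀ᶠ s in 𝓝[≠] (0 : ℂ), ∃ y ∈ X, S.Hit v y ∧ S.u y - S.u x - s • v ∈ S.Λ
  · right
    obtain ⟨x, hx, hxH, hxu, hs⟩ := hB
    rw [eventually_nhdsWithin_iff] at hs
    have ht : Tendsto (fun z' : ℂ => z' - z) (𝓝 z) (𝓝 0) := by
      have : Continuous (fun z' : ℂ => z' - z) := by fun_prop
      exact this.tendsto' z 0 (sub_self z)
    filter_upwards [ht.eventually hs] with z' hz'
    by_cases hzz : z' = z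
    · rw [hzz]; exact ⟨x, hx, hxH, hxu⟩
    · obtain ⟨y, hy, hyH, hyu⟩ := hz' (sub_ne_zero.2 hzz)
      refine ⟨y, hy, hyH, ?_⟩
      have h1 := S.Λ.add_mem hyu hxu
      have h2 : S.u y - S.u x - (z' - z) • v + (S.u x - (b + z • v)) = S.u y - (b + z' • v) := by
        rw [sub_smul]; abel
      rwa [h2] at h1
  · left
    push Not at hB
    have key : ∀ x ∈ X ∩ sphere (0 : EN N) 1, ∀ᶠ y : ℂ × EN N in 𝓝 (z, x), y.1 ≠ z → y.2 ∈ X → S.Hit v y.2 → S.u y.2 - (b + y.1 • v) ∉ S.Λ := by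
      rintro x ⟨hx, -⟩
      by_cases hxH : S.Hit v x
      swap
      · have h1 := (continuousAt_snd (p := ((z, x) : ℂ × EN N))).eventually (S.not_hit v hx hxH)
        filter_upwards [h1] with y hy _ hyX hyH
        exact absurd hyH (hy hyX)
      by_cases hxu : S.u x - (b + z • v) ∈ S.Λ
      swap
      · filter_upwards [S.far_near b z hx hxu] with y hy _ hyX _
        exact hy hyX
      have hA : ∀ᶠ y in 𝓝 x, y ∈ X → S.Hit v y → S.u y - S.u x ∈ S.Λ := by
        rcases (S.local_x hv hx).2 with h | h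
        · exact h
        · exact absurd h (fun h' => hB x hx hxH hxu (h'.mono fun s hs hcon => by
            obtain ⟨y, hy, hyH, hyu⟩ := hs
            exact hcon y hy hyH hyu))
      have h1 := (continuousAt_snd (p := ((z, x) : ℂ × EN N))).eventually hA
      obtain ⟨δ, hδ, hd⟩ := S.disc
      have h2 : ∀ᶠ y : ℂ × EN N in 𝓝 (z, x), ‖(y.1 - z) • v‖ < δ := by
        have h3 : Continuous (fun y : ℂ × EN N => ‖(y.1 - z) • v‖) := by fun_prop
        have h4 : Tendsto (fun y : ℂ × EN N => ‖(y.1 - z) • v‖) (𝓝 (z, x)) (𝓝 0) := h3.tendsto' _ _ (by simp)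
        exact h4.eventually_lt_const hδ
      filter_upwards [h1, h2] with y hy1 hy2 hyz hyX hyH hmem
      have h5 := S.Λ.sub_mem (S.Λ.add_mem (hy1 hyX hyH) hxu) hmem
      have h6 : S.u y.2 - S.u x + (S.u x - (b + z • v)) - (S.u y.2 - (b + y.1 • v)) = (y.1 - z) • v := by
        rw [sub_smul]; abel
      rw [h6] at h5
      have h7 := hd _ h5 hy2
      rw [smul_eq_zero] at h7
      rcases h7 with h7 | h7
      · exact hyz (sub_eq_zero.1 h7)
      · exact hv h7
    have h1 := S.compact_K.eventually_forall_of_forall_eventually (x₀ := z) (P := fun z' x => z' ≠ z → x ∈ X → S.Hit v x → S.u x - (b + z' • v) ∉ S.Λ) key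
    filter_upwards [h1] with z' hz' hne hmem
    obtain ⟨y, hy, hyH, hyu⟩ := hmem
    obtain ⟨c, hc, hcy⟩ := S.unit_rep hy
    refine hz' _ hcy hne hcy.1 ((S.hit_smul v hy hc).2 hyH) ?_
    have h2 := S.Λ.add_mem (S.torus.smul y hy c hc) hyu
    rwa [sub_add_sub_cancel] at h2

private theorem LL_univ {v : Vd 2} (hv : v ≠ 0) (b : Vd 2) {z : ℂ} (hz : ∀ᶠ z' in 𝓝 z, z' ∈ S.LL v b) : ∀ w, w ∈ S.LL v b := by
  have hclopen : IsClopen {z : ℂ | ∀ᶠ z' in 𝓝 z, z' ∈ S.LL v b} := by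
    constructor
    · rw [← isOpen_compl_iff, isOpen_iff_mem_nhds]
      intro w hw
      rcases S.iso_or_int hv b w with h | h
      · obtain ⟨r, hr, hball⟩ := Metric.eventually_nhds_iff_ball.1 h
        filter_upwards [ball_mem_nhds w hr] with w' hw' hmem
        by_cases hww : w' = w
        · rw [hww] at hmem; exact hw hmem
        · exact hball w' hw' hww hmem.self_of_nhds
      · exact absurd h hw
    · exact isOpen_setOfPred_eventually_nhds
  rcases isClopen_iff.1 hclopen with h | h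
  · have : z ∈ ({z : ℂ | ∀ᶠ z' in 𝓝 z, z' ∈ S.LL v b} : Set ℂ) := hz
    rw [h] at this
    exact absurd this (Set.notMem_empty z)
  · intro w
    have : w ∈ ({z : ℂ | ∀ᶠ z' in 𝓝 z, z' ∈ S.LL v b} : Set ℂ) := by rw [h]; trivial
    exact this.self_of_nhds

/-- the multiples of `v` in `Λ` are on a real line, with a normal unit vector `n` -/
private theorem exists_normal {v : Vd 2} (hne : ∀ ω₁ ω₂ : ℂ, LinearIndependent ℝ ![ω₁, ω₂] → ω₁ • v ∈ S.Λ → ω₂ • v ∉ S.Λ) :
    ∃ n : ℂ, ∀ (k : ℝ) (ω : ℂ), ω • v ∈ S.Λ → |k| ≤ ‖ω - k • n‖ := by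
  by_cases h : ∃ ω₀ : ℂ, ω₀ ≠ 0 ∧ ω₀ • v ∈ S.Λ
  · obtain ⟨ω₀, h0, h0m⟩ := h
    refine ⟨Complex.I * ω₀ / ‖ω₀‖, fun k ω hω => ?_⟩
    have hnli : ¬ LinearIndependent ℝ ![ω₀, ω] := fun hli => hne ω₀ ω hli h0m hω
    have hr : ∃ r : ℝ, ω = r • ω₀ := by
      rw [LinearIndependent.pair_iff] at hnli
      push Not at hnli
      obtain ⟨s, t, hst, hne0⟩ := hnli
      have ht : t ≠ 0 := by
        intro ht
        rw [ht, zero_smul, add_zero, smul_eq_zero] at hst
        rcases hst with hst | hst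
        · exact hne0 hst ht
        · exact h0 hst
      refine ⟨-(s / t), ?_⟩
      have h1 : t • ω = -(s • ω₀) := by rw [eq_neg_iff_add_eq_zero, add_comm]; exact hst
      have h2 : ω = t⁻¹ • (t • ω) := by rw [smul_smul, inv_mul_cancel₀ ht, one_smul]
      rw [h2, h1, smul_neg, smul_smul, neg_smul]
      congr 2
      field_simp
    obtain ⟨r, rfl⟩ := hr
    have hn0 : (‖ω₀‖ : ℂ) ≠ 0 := by
      rw [Ne, Complex.ofReal_eq_zero]; exact norm_ne_zero_iff.2 h0
    have e : r • ω₀ - k • (Complex.I * ω₀ / ‖ω₀‖) = ω₀ * ((r : ℂ) - (k / ‖ω₀‖ : ℝ) * Complex.I) := by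
      rw [Complex.real_smul, Complex.real_smul]
      push_cast
      field_simp
    rw [e, norm_mul]
    have h3 : |k / ‖ω₀‖| ≤ ‖(r : ℂ) - (k / ‖ω₀‖ : ℝ) * Complex.I‖ := by
      have h4 := Complex.abs_im_le_norm ((r : ℂ) - (k / ‖ω₀‖ : ℝ) * Complex.I)
      have h5 : ((r : ℂ) - (k / ‖ω₀‖ : ℝ) * Complex.I).im = -(k / ‖ω₀‖) := by
        simp
      rw [h5, abs_neg] at h4
      exact h4
    have h6 : 0 < ‖ω₀‖ := norm_pos_iff.2 h0
    calc |k| = ‖ω₀‖ * |k / ‖ω₀‖| := by rw [abs_div, abs_of_pos h6]; field_simp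
      _ ≤ _ := mul_le_mul_of_nonneg_left h3 h6.le
  · push Not at h
    refine ⟨1, fun k ω hω => ?_⟩
    have : ω = 0 := by
      by_contra h0
      exact h ω h0 hω
    rw [this, zero_sub, norm_neg, norm_smul, norm_one, mul_one, Real.norm_eq_abs]

private theorem LL_ne_univ {v : Vd 2} (hv : v ≠ 0) (hne : ∀ ω₁ ω₂ : ℂ, LinearIndependent ℝ ![ω₁, ω₂] → ω₁ • v ∈ S.Λ → ω₂ • v ∉ S.Λ) (b : Vd 2) :
    ¬ ∀ w, w ∈ S.LL v b := by
  intro hall
  obtain ⟨n, hn⟩ := S.exists_normal hne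
  -- finitely many leaf discs
  obtain ⟨t, htX, hcov⟩ := S.compact_K.elim_nhds_subcover (fun x => {y | y ∈ X → S.Hit v y → ∃ c : ℂ, ‖c‖ ≤ 1 ∧ S.u y - S.u x - c • v ∈ S.Λ})
    (fun x hx => (S.local_x hv hx.1).1)
  have hpt : ∀ w : ℂ, ∃ x ∈ t, ∃ c : ℂ, ‖c‖ ≤ 1 ∧ b + w • v - S.u x - c • v ∈ S.Λ := by
    intro w
    obtain ⟨y, hy, hyH, hyu⟩ := hall w
    obtain ⟨c, hc, hcy⟩ := S.unit_rep hy
    obtain ⟨x, hx, hxy⟩ := Set.mem_iUnion₂.1 (hcov hcy)
    obtain ⟨c', hc', hm⟩ := hxy hcy.1 ((S.hit_smul v hy hc).2 hyH)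
    refine ⟨x, hx, c', hc', ?_⟩
    have h1 := S.Λ.sub_mem (S.Λ.sub_mem hm (S.torus.smul y hy c hc)) hyu
    have h2 : S.u (c • y) - S.u x - c' • v - (S.u (c • y) - S.u y) - (S.u y - (b + w • v)) = b + w • v - S.u x - c' • v := by abel
    rwa [h2] at h1
  choose x hx c hc hm using hpt
  -- pigeonhole
  have hinf : ∃ j j' : ℕ, j < j' ∧ x ((5 * j : ℝ) • n) = x ((5 * j' : ℝ) • n) := by
    have h1 : Set.MapsTo (fun j : ℕ => x ((5 * j : ℝ) • n)) (Finset.range (t.card + 1) : Set ℕ) (t : Set (EN N)) := fun j _ => hx _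
    have h2 : t.card < (Finset.range (t.card + 1)).card := by rw [Finset.card_range]; omega
    obtain ⟨j, -, j', -, hjj, he⟩ := Finset.exists_ne_map_eq_of_card_lt_of_maps_to h2 h1
    rcases lt_or_gt_of_ne hjj with h | h
    · exact ⟨j, j', h, he⟩
    · exact ⟨j', j, h, he.symm⟩
  obtain ⟨j, j', hjj, he⟩ := hinf
  have h1 := S.Λ.sub_mem (hm ((5 * j' : ℝ) • n)) (hm ((5 * j : ℝ) • n))
  rw [he] at h1
  set z₁ : ℂ := (5 * j : ℝ) • n with hz₁
  set z₂ : ℂ := (5 * j' : ℝ) • n with hz₂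
  have h2 : b + z₂ • v - S.u (x z₂) - c z₂ • v - (b + z₁ • v - S.u (x z₂) - c z₁ • v) = (z₂ - z₁ - (c z₂ - c z₁)) • v := by
    rw [sub_smul, sub_smul, sub_smul]; abel
  rw [h2] at h1
  have h3 := hn (5 * j' - 5 * j) _ h1
  have h4 : z₂ - z₁ - (c z₂ - c z₁) - (5 * (j' : ℝ) - 5 * j) • n = -(c z₂ - c z₁) := by
    rw [hz₁, hz₂, sub_smul]; ring
  rw [h4, norm_neg] at h3
  have h5 : ‖c z₂ - c z₁‖ ≤ 1 + 1 := (norm_sub_le _ _).trans (add_le_add (hc _) (hc _))
  have h6 : (1 : ℝ) ≤ (j' : ℝ) - j := by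
    have : j + 1 ≤ j' := hjj
    have h7 : ((j + 1 : ℕ) : ℝ) ≤ j' := by exact_mod_cast this
    push_cast at h7
    linarith
  have h7 : (5 : ℝ) ≤ |5 * (j' : ℝ) - 5 * j| := by
    rw [abs_of_nonneg (by linarith)]; linarith
  linarith

/-- the zeros of `om v (d u)` lie over finitely many points -/
theorem hits_finite {v : Vd 2} (hv : v ≠ 0) (hne : ∀ ω₁ ω₂ : ℂ, LinearIndependent ℝ ![ω₁, ω₂] → ω₁ • v ∈ S.Λ → ω₂ • v ∉ S.Λ) :
    ∃ T : Finset (Vd 2), ∀ x ∈ X, S.Hit v x → ∃ t ∈ T, S.u x - t ∈ S.Λ := by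
  classical
  have hA : ∀ x ∈ X ∩ sphere (0 : EN N) 1, {y | y ∈ X → S.Hit v y → S.u y - S.u x ∈ S.Λ} ∈ 𝓝 x := by
    rintro x ⟨hx, -⟩
    by_cases hxH : S.Hit v x
    · rcases (S.local_x hv hx).2 with h | h
      · exact h
      · exfalso
        refine S.LL_ne_univ hv hne (S.u x) (S.LL_univ hv (S.u x) (z := 0) ?_)
        rw [eventually_nhdsWithin_iff] at h
        filter_upwards [h] with s hs
        by_cases hs0 : s = 0
        · rw [hs0]
          exact ⟨x, hx, hxH, by rw [zero_smul, add_zero, sub_self]; exact S.Λ.zero_mem⟩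
        · obtain ⟨y, hy, hyH, hyu⟩ := hs hs0
          refine ⟨y, hy, hyH, ?_⟩
          rwa [sub_sub] at hyu
    · filter_upwards [S.not_hit v hx hxH] with y hy hyX hyH
      exact absurd hyH (hy hyX)
  obtain ⟨t, htX, hcov⟩ := S.compact_K.elim_nhds_subcover _ hA
  refine ⟨t.image S.u, fun x hx hxH => ?_⟩
  obtain ⟨c, hc, hcx⟩ := S.unit_rep hx
  obtain ⟨y, hy, hxy⟩ := Set.mem_iUnion₂.1 (hcov hcx)
  refine ⟨S.u y, Finset.mem_image_of_mem _ hy, ?_⟩
  have h1 := S.Λ.sub_mem (hxy hcx.1 ((S.hit_smul v hx hc).2 hxH)) (S.torus.smul x hx c hc)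
  rwa [sub_sub_sub_cancel_left] at h1

end Setting

end Pool.Agent.TH
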