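import Pool.Agent.H22.HF.Par

/-!
# HF Div: division by powers of the first variable

`g : ℂ × E → ℂ` analytic at `0`, not zero near `0`: `g (s, x) = s ^ a * g' (s, x)` with `g' (0, ·)` not zero near `0`.

Proof.  Choose `ρ > 0` such that `g` is analytic at `(σ, x)` for `‖σ‖ ≤ ρ`, `‖x‖ < ρ`.  For `a : ℕ`, `‖s‖ < ρ`, `‖x‖ < ρ` put
`G a (s, x) = (2 π i)⁻¹ ∮_{‖σ‖ = ρ} g (σ, x) / (σ ^ a (σ - s)) dσ`: analytic (`analyticAt_circleIntegral`), `G 0 = g` (Cauchy's formula), and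
`G a (s, x) = G a (0, x) + s * G (a + 1) (s, x)` because `1 / (σ ^ a (σ - s)) = 1 / σ ^ (a + 1) + s / (σ ^ (a + 1) (σ - s))`.
If for all `a` `G a (0, ·) = 0` near `0`, then on `ball 0 ρ` (identity theorem `AnalyticOnNhd.eqOn_zero_of_preconnected_of_eventuallyEq_zero`), so for `‖x‖ < ρ`
`g (s, x) = s ^ a * G a (s, x)` for all `a`, and `‖G a (s, x)‖ ≤ C_x ρ ^ (- a) ρ / (ρ - ‖s‖)`, so `g (s, x) = 0` for `‖s‖ < ρ` (or: all the derivatives of `g (·, x)` at `0` are zero):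
contradiction.  Let `a` be minimal with `G a (0, ·)` not zero near `0`, `g' = G a`.
-/

set_option autoImplicit false

open Metric Set Filter Topology

namespace Pool.Agent.H22.HF

theorem exists_div {E : Type} [NormedAddCommGroup E] [NormedSpace ℂ E] [FiniteDimensional ℂ E] {g : ℂ × E → ℂ} (hg : AnalyticAt ℂ g 0)
    (hne : ¬ ∀ᶠ y in 𝓝 (0 : ℂ × E), g y = 0) :
    ∃ (a : ℕ) (g' : ℂ × E → ℂ), AnalyticAt ℂ g' 0 ∧ (∀ᶠ y in 𝓝 (0 : ℂ × E), g y = y.1 ^ a * g' y) ∧ ¬ ∀ᶠ x in 𝓝 (0 : E), g' (0, x) = 0 := by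
  classical
  obtain ⟨r, hr, hball⟩ := Metric.eventually_nhds_iff_ball.mp hg.eventually_analyticAt
  obtain ⟨ρ, hρ, hρr⟩ : ∃ ρ : ℝ, 0 < ρ ∧ ρ < r := ⟨r / 2, by linarith, by linarith⟩
  have hmem : ∀ (σ : ℂ) (x : E), ‖σ‖ ≤ ρ → ‖x‖ < r → AnalyticAt ℂ g (σ, x) := by
    intro σ x h1 h2
    refine hball _ ?_
    rw [mem_ball_zero_iff, Prod.norm_mk]
    exact max_lt (lt_of_le_of_lt h1 hρr) h2
  let G : ℕ → ℂ × E → ℂ := fun a y => (2 * Real.pi * Complex.I : ℂ)⁻¹ * ∮ σ in C(0, ρ), g (σ, y.2) / (σ ^ a * (σ - y.1))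
  have hne0 : ∀ σ ∈ sphere (0 : ℂ) ρ, ∀ s : ℂ, ‖s‖ < ρ → σ ≠ 0 ∧ σ - s ≠ 0 := by
    intro σ hσ s hs
    have hn : ‖σ‖ = ρ := by simpa using hσ
    constructor
    · rintro rfl
      rw [norm_zero] at hn
      linarith
    · intro h
      rw [sub_eq_zero] at h
      rw [h] at hn
      linarith
  have hGan : ∀ a (y : ℂ × E), ‖y.1‖ < ρ → ‖y.2‖ < r → AnalyticAt ℂ (G a) y := by
    intro a y h1 h2
    have h3 : AnalyticAt ℂ (fun p : ℂ × E => ∮ σ in C(0, ρ), (fun q : (ℂ × E) × ℂ => g (q.2, q.1.2) / (q.2 ^ a * (q.2 - q.1.1))) (p, σ)) y := by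
      refine analyticAt_circleIntegral (E := ℂ × E)
        (F := fun q : (ℂ × E) × ℂ => g (q.2, q.1.2) / (q.2 ^ a * (q.2 - q.1.1))) hρ ?_
      intro σ hσ
      have hn : ‖σ‖ = ρ := by simpa using hσ
      obtain ⟨e1, e2⟩ := hne0 σ hσ y.1 h1
      have a1 : AnalyticAt ℂ (fun q : (ℂ × E) × ℂ => g (q.2, q.1.2)) (y, σ) := by
        have h4 : AnalyticAt ℂ g ((fun q : (ℂ × E) × ℂ => (q.2, q.1.2)) (y, σ)) := hmem σ y.2 hn.le h2
        have h5 : AnalyticAt ℂ (fun q : (ℂ × E) × ℂ => (q.2, q.1.2)) (y, σ) :=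
          analyticAt_snd.prod (AnalyticAt.comp (g := Prod.snd) (f := Prod.fst) analyticAt_snd analyticAt_fst)
        exact AnalyticAt.comp (g := g) (f := fun q : (ℂ × E) × ℂ => (q.2, q.1.2)) h4 h5
      have a2 : AnalyticAt ℂ (fun q : (ℂ × E) × ℂ => q.2 ^ a * (q.2 - q.1.1)) (y, σ) :=
        (analyticAt_snd.pow a).mul (analyticAt_snd.sub (analyticAt_fst.comp analyticAt_fst))
      exact a1.div a2 (mul_ne_zero (pow_ne_zero _ e1) e2)
    exact analyticAt_const.mul h3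
  have hcont : ∀ x : E, ‖x‖ < r → ContinuousOn (fun σ : ℂ => g (σ, x)) (sphere (0 : ℂ) ρ) := by
    intro x hx σ hσ
    have hn : ‖σ‖ = ρ := by simpa using hσ
    have h4 : ContinuousAt g ((fun σ : ℂ => (σ, x)) σ) := (hmem σ x hn.le hx).continuousAt
    exact (ContinuousAt.comp (f := fun σ : ℂ => (σ, x)) h4 (Continuous.prodMk_left x).continuousAt).continuousWithinAt
  have hG0 : ∀ (s : ℂ) (x : E), ‖s‖ < ρ → ‖x‖ < r → G 0 (s, x) = g (s, x) := by
    intro s x h1 h2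
    have hd : DiffContOnCl ℂ (fun σ : ℂ => g (σ, x)) (ball (0 : ℂ) ρ) := by
      refine DifferentiableOn.diffContOnCl ?_
      rw [closure_ball _ hρ.ne']
      intro σ hσ
      have hn : ‖σ‖ ≤ ρ := by simpa using hσ
      have h4 : DifferentiableAt ℂ g ((fun σ : ℂ => (σ, x)) σ) := (hmem σ x hn h2).differentiableAt
      exact (DifferentiableAt.comp σ h4 (differentiableAt_id.prodMk (differentiableAt_const x))).differentiableWithinAt
    have h5 := hd.two_pi_i_inv_smul_circleIntegral_sub_inv_smul (w := s) (by simpa using h1)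
    rw [smul_eq_mul] at h5
    rw [← h5]
    change (2 * Real.pi * Complex.I : ℂ)⁻¹ * _ = _
    congr 1
    refine circleIntegral.integral_congr hρ.le ?_
    intro σ _
    simp only [pow_zero, one_mul, smul_eq_mul]
    rw [div_eq_mul_inv, mul_comm]
  have hrec : ∀ a (s : ℂ) (x : E), ‖s‖ < ρ → ‖x‖ < r → G a (s, x) = G a (0, x) + s * G (a + 1) (s, x) := by
    intro a s x h1 h2
    have i1 : CircleIntegrable (fun σ : ℂ => g (σ, x) / (σ ^ a * (σ - 0))) 0 ρ := by
      refine ContinuousOn.circleIntegrable hρ.le ((hcont x h2).div ?_ ?_)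
      · fun_prop
      · intro σ hσ
        obtain ⟨e1, e2⟩ := hne0 σ hσ 0 (by simpa using hρ)
        exact mul_ne_zero (pow_ne_zero _ e1) e2
    have i2 : CircleIntegrable (fun σ : ℂ => s * (g (σ, x) / (σ ^ (a + 1) * (σ - s)))) 0 ρ := by
      refine ContinuousOn.circleIntegrable hρ.le (continuousOn_const.mul ((hcont x h2).div ?_ ?_))
      · fun_prop
      · intro σ hσ
        obtain ⟨e1, e2⟩ := hne0 σ hσ s h1
        exact mul_ne_zero (pow_ne_zero _ e1) e2
    have h3 : (∮ σ in C(0, ρ), g (σ, x) / (σ ^ a * (σ - s)))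
        = (∮ σ in C(0, ρ), g (σ, x) / (σ ^ a * (σ - 0))) + s * ∮ σ in C(0, ρ), g (σ, x) / (σ ^ (a + 1) * (σ - s)) := by
      rw [← circleIntegral.integral_const_mul, ← circleIntegral.integral_add i1 i2]
      refine circleIntegral.integral_congr hρ.le ?_
      intro σ hσ
      obtain ⟨e1, e2⟩ := hne0 σ hσ s h1
      simp only [sub_zero]
      field_simp
      ring
    change (2 * Real.pi * Complex.I : ℂ)⁻¹ * _ = (2 * Real.pi * Complex.I : ℂ)⁻¹ * _ + s * ((2 * Real.pi * Complex.I : ℂ)⁻¹ * _)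
    simp only
    rw [h3]
    ring
  have hid : ∀ a, (∀ᶠ x in 𝓝 (0 : E), G a (0, x) = 0) → ∀ x : E, ‖x‖ < r → G a (0, x) = 0 := by
    intro a ha x hx
    have h1 : AnalyticOnNhd ℂ (fun x : E => G a (0, x)) (ball (0 : E) r) := by
      intro z hz
      have h4 : AnalyticAt ℂ (G a) ((fun x : E => ((0 : ℂ), x)) z) := hGan a (0, z) (by simpa using hρ) (by simpa using hz)
      exact AnalyticAt.comp (g := G a) (f := fun x : E => ((0 : ℂ), x)) h4 (analyticAt_const.prod analyticAt_id)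
    exact h1.eqOn_zero_of_preconnected_of_eventuallyEq_zero (convex_ball _ _).isPreconnected (mem_ball_self hr) ha (by simpa using hx)
  have hpow : ∀ a, (∀ b < a, ∀ᶠ x in 𝓝 (0 : E), G b (0, x) = 0) → ∀ (s : ℂ) (x : E), ‖s‖ < ρ → ‖x‖ < r → g (s, x) = s ^ a * G a (s, x) := by
    intro a
    induction a with
    | zero =>
      intro _ s x h1 h2
      rw [pow_zero, one_mul, hG0 s x h1 h2]
    | succ a ih =>
      intro hb s x h1 h2
      rw [ih (fun b hb' => hb b (Nat.lt_succ_of_lt hb')) s x h1 h2, hrec a s x h1 h2, hid a (hb a (Nat.lt_succ_self a)) x h2, zero_add, pow_succ]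
      ring
  have hex : ∃ a, ¬ ∀ᶠ x in 𝓝 (0 : E), G a (0, x) = 0 := by
    by_contra hcon
    push Not at hcon
    have hall : ∀ b, ∀ᶠ x in 𝓝 (0 : E), G b (0, x) = 0 := hcon
    apply hne
    have hz : ∀ (s : ℂ) (x : E), ‖s‖ < ρ → ‖x‖ < r → g (s, x) = 0 := by
      intro s x hs hx
      have hf : AnalyticOnNhd ℂ (fun σ : ℂ => g (σ, x)) (ball (0 : ℂ) ρ) := by
        intro σ hσ
        have h4 : AnalyticAt ℂ g ((fun σ : ℂ => (σ, x)) σ) := hmem σ x (by simpa using (mem_ball_zero_iff.mp hσ).le) hx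
        exact AnalyticAt.comp h4 (analyticAt_id.prod analyticAt_const)
      have htop : analyticOrderAt (fun σ : ℂ => g (σ, x)) 0 = ⊤ := by
        refine ENat.eq_top_iff_forall_ge.mpr ?_
        intro a
        rw [natCast_le_analyticOrderAt (hf 0 (mem_ball_self hρ))]
        refine ⟨fun σ => G a (σ, x), ?_, ?_⟩
        · have h4 : AnalyticAt ℂ (G a) ((fun σ : ℂ => (σ, x)) 0) := hGan a (0, x) (by simpa using hρ) hx
          exact AnalyticAt.comp (g := G a) (f := fun σ : ℂ => (σ, x)) h4 (analyticAt_id.prod analyticAt_const)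
        · filter_upwards [ball_mem_nhds (0 : ℂ) hρ] with σ hσ
          rw [sub_zero, smul_eq_mul]
          exact hpow a (fun b _ => hall b) σ x (by simpa using hσ) hx
      rw [analyticOrderAt_eq_top] at htop
      exact hf.eqOn_zero_of_preconnected_of_eventuallyEq_zero (convex_ball _ _).isPreconnected (mem_ball_self hρ) htop (by simpa using hs)
    filter_upwards [ball_mem_nhds (0 : ℂ × E) hρ] with y hy
    rw [mem_ball_zero_iff, Prod.norm_def] at hy
    exact hz y.1 y.2 (lt_of_le_of_lt (le_max_left _ _) hy) (lt_trans (lt_of_le_of_lt (le_max_right _ _) hy) hρr)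
  refine ⟨Nat.find hex, G (Nat.find hex), hGan _ 0 (by simpa using hρ) (by simpa using hr), ?_, Nat.find_spec hex⟩
  filter_upwards [ball_mem_nhds (0 : ℂ × E) hρ] with y hy
  rw [mem_ball_zero_iff, Prod.norm_def] at hy
  refine hpow (Nat.find hex) ?_ y.1 y.2 (lt_of_le_of_lt (le_max_left _ _) hy) (lt_trans (lt_of_le_of_lt (le_max_right _ _) hy) hρr)
  intro b hb
  by_contra h
  exact Nat.find_min hex hb h

end Pool.Agent.H22.HF
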